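import Mathlib

set_option autoImplicit false

namespace Pool.Agent.H.MP_ad67df_lc

/-! ### initial segments -/

/-- finite initial segment of a binary sequence -/
def bpre (X : ℕ → Bool) (m : ℕ) : List Bool := List.ofFn fun j : Fin m => X j.val

theorem bpre_length (X : ℕ → Bool) (m : ℕ) : (bpre X m).length = m := by simp [bpre]

theorem bpre_getElem? (X : ℕ → Bool) {m i : ℕ} (h : i < m) : (bpre X m)[i]? = some (X i) := by
  simp [bpre, h]

theorem bpre_take (X : ℕ → Bool) {k m : ℕ} (h : k ≤ m) : (bpre X m).take k = bpre X k := by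
  apply List.ext_getElem?
  intro i
  by_cases hi : i < k
  · rw [List.getElem?_take_of_lt hi, bpre_getElem? X (lt_of_lt_of_le hi h), bpre_getElem? X hi]
  · rw [List.getElem?_eq_none, List.getElem?_eq_none] <;> simp [bpre_length] <;> omega

theorem bpre_prefix (X : ℕ → Bool) {k m : ℕ} (h : k ≤ m) : bpre X k <+: bpre X m := by
  rw [← bpre_take X h]; exact List.take_prefix _ _

theorem bpre_succ (X : ℕ → Bool) (m : ℕ) : bpre X (m + 1) = bpre X m ++ [X m] := by
  unfold bpre
  rw [List.ofFn_succ']
  simp

theorem prefix_bpre {X : ℕ → Bool} {σ : List Bool} {m : ℕ} (h : σ <+: bpre X m) :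
    σ = bpre X σ.length := by
  have hl := h.length_le
  rw [bpre_length] at hl
  rw [List.prefix_iff_eq_take] at h
  rw [h, bpre_take X hl]
  simp [bpre_length]

theorem bpre_inj_le {X : ℕ → Bool} {σ : List Bool} (h : bpre X σ.length = σ) {m : ℕ}
    (hm : σ.length ≤ m) : σ <+: bpre X m := by
  have := bpre_prefix X hm
  rwa [h] at this

/-! ### binary strings of given length -/

/-- all binary strings of length `L` -/
def bins : ℕ → List (List Bool)
  | 0 => [[]]
  | L + 1 => (bins L).flatMap fun σ => [σ ++ [false], σ ++ [true]]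

theorem mem_bins {L : ℕ} {σ : List Bool} : σ ∈ bins L ↔ σ.length = L := by
  induction L generalizing σ with
  | zero =>
    simp only [bins, List.mem_singleton, List.length_eq_zero_iff]
  | succ L ih =>
    simp only [bins, List.mem_flatMap, List.mem_cons, List.not_mem_nil, or_false]
    constructor
    · rintro ⟨τ, hτ, rfl | rfl⟩
      · simp [ih.1 hτ]
      · simp [ih.1 hτ]
    · intro hl
      rcases List.eq_nil_or_concat σ with rfl | ⟨τ, a, rfl⟩
      · simp at hl
      · refine ⟨τ, ih.2 (by simpa using hl), ?_⟩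
        cases a
        · left; simp
        · right; simp

theorem bins_length (L : ℕ) : (bins L).length = 2 ^ L := by
  induction L with
  | zero => rfl
  | succ L ih =>
    simp only [bins, List.length_flatMap]
    simp [ih, pow_succ]

theorem nodup_children {l : List (List Bool)} (h : l.Nodup) :
    (l.flatMap fun σ => [σ ++ [false], σ ++ [true]]).Nodup := by
  rw [List.nodup_flatMap]
  refine ⟨fun σ _ => by simp, ?_⟩
  refine h.imp ?_
  intro σ τ hne
  simp only [Function.onFun, List.disjoint_left]
  intro a ha hb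
  simp only [List.mem_cons, List.not_mem_nil, or_false] at ha hb
  rcases ha with rfl | rfl <;> rcases hb with hb | hb <;>
    · have := List.append_inj' hb rfl
      exact hne this.1

theorem bins_nodup (L : ℕ) : (bins L).Nodup := by
  induction L with
  | zero => simp [bins]
  | succ L ih => exact nodup_children ih

/-- finset of binary strings of length `L` -/
def SS (L : ℕ) : Finset (List Bool) := (bins L).toFinset

theorem mem_SS {L : ℕ} {σ : List Bool} : σ ∈ SS L ↔ σ.length = L := by
  rw [SS, List.mem_toFinset, mem_bins]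

theorem card_SS (L : ℕ) : (SS L).card = 2 ^ L := by
  rw [SS, List.toFinset_card_of_nodup (bins_nodup L), bins_length]

theorem countP_nodup_eq {l : List (List Bool)} (hl : l.Nodup) (p : List Bool → Bool) :
    l.countP p = (l.toFinset.filter fun σ => p σ = true).card := by
  rw [List.countP_eq_length_filter, ← List.toFinset_filter,
    List.toFinset_card_of_nodup (hl.filter _)]

theorem countP_bins (L : ℕ) (p : List Bool → Bool) :
    (bins L).countP p = ((SS L).filter fun σ => p σ = true).card :=
  countP_nodup_eq (bins_nodup L) p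

theorem bpre_mem_SS (X : ℕ → Bool) (m : ℕ) : bpre X m ∈ SS m := by
  rw [mem_SS, bpre_length]

theorem take_mem_SS {L k : ℕ} {σ : List Bool} (h : σ ∈ SS L) (hk : k ≤ L) : σ.take k ∈ SS k := by
  rw [mem_SS] at h ⊢
  simp [h, hk]

/-- number of strings of length `L` whose restriction to `k` lies in a given set -/
theorem card_take_mem (L k : ℕ) (hk : k ≤ L) (Z : Finset (List Bool)) (hZ : Z ⊆ SS k) :
    ((SS L).filter fun σ => σ.take k ∈ Z).card = Z.card * 2 ^ (L - k) := by
  rw [← card_SS (L - k), ← Finset.card_product]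
  symm
  apply Finset.card_bij (fun p _ => p.1 ++ p.2)
  · rintro ⟨σ, ρ⟩ hp
    rw [Finset.mem_product] at hp
    have h1 := mem_SS.1 (hZ hp.1)
    have h2 := mem_SS.1 hp.2
    simp only at h1 h2
    rw [Finset.mem_filter, mem_SS]
    refine ⟨by simp [h1, h2, hk], ?_⟩
    simp only
    rw [List.take_append_of_le_length (by omega), ← h1, List.take_length]
    exact hp.1
  · rintro ⟨σ, ρ⟩ hp ⟨σ', ρ'⟩ hp' heq
    rw [Finset.mem_product] at hp hp'
    have h1 := mem_SS.1 (hZ hp.1)
    have h1' := mem_SS.1 (hZ hp'.1)
    simp only at h1 h1' heq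
    have := List.append_inj heq (by rw [h1, h1'])
    rw [this.1, this.2]
  · intro σ hσ
    rw [Finset.mem_filter, mem_SS] at hσ
    refine ⟨(σ.take k, σ.drop k), ?_, List.take_append_drop _ _⟩
    rw [Finset.mem_product]
    refine ⟨hσ.2, ?_⟩
    rw [mem_SS]; simp [hσ.1]

theorem card_prefix_le (L : ℕ) (v : List Bool) :
    ((SS L).filter fun σ => v <+: σ).card * 2 ^ v.length ≤ 2 ^ L := by
  by_cases hk : v.length ≤ L
  · have h1 : ((SS L).filter fun σ => v <+: σ) ⊆
        ((SS L).filter fun σ => σ.take v.length ∈ ({v} : Finset (List Bool))) := by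
      intro σ hσ
      rw [Finset.mem_filter] at hσ ⊢
      refine ⟨hσ.1, ?_⟩
      rw [Finset.mem_singleton]
      exact (List.prefix_iff_eq_take.1 hσ.2).symm
    have h2 := card_take_mem L v.length hk {v} (by
      intro x hx; rw [Finset.mem_singleton.1 hx, mem_SS])
    have h3 := Finset.card_le_card h1
    rw [h2] at h3
    calc _ ≤ (({v} : Finset (List Bool)).card * 2 ^ (L - v.length)) * 2 ^ v.length :=
          Nat.mul_le_mul_right _ h3
      _ = 2 ^ L := by
          rw [Finset.card_singleton, one_mul, ← pow_add]; congr 1; omega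
  · have : ((SS L).filter fun σ => v <+: σ) = ∅ := by
      rw [Finset.filter_eq_empty_iff]
      intro σ hσ hpre
      have := hpre.length_le
      rw [mem_SS.1 hσ] at this
      exact hk this
    rw [this]; simp

/-- König's lemma -/
theorem konig (T : List Bool → Prop) (hT : ∀ σ τ, σ <+: τ → T τ → T σ) (σ₀ : List Bool)
    (h : ∀ L, σ₀.length ≤ L → ∃ τ ∈ SS L, σ₀ <+: τ ∧ T τ) :
    ∃ x : ℕ → Bool, bpre x σ₀.length = σ₀ ∧ ∀ m, T (bpre x m) := by
  let K : ℕ → Set (ℕ → Bool) := fun m => {x | bpre x σ₀.length = σ₀ ∧ T (bpre x m)}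
  have hclosed : ∀ (m : ℕ) (P : List Bool → Prop), IsClosed {x : ℕ → Bool | P (bpre x m)} := by
    intro m P
    have hc : Continuous (fun (x : ℕ → Bool) (j : Fin m) => x j.val) :=
      continuous_pi fun j => continuous_apply _
    have : {x : ℕ → Bool | P (bpre x m)} = (fun (x : ℕ → Bool) (j : Fin m) => x j.val) ⁻¹'
        {y | P (List.ofFn y)} := rfl
    rw [this]
    exact (isClosed_discrete _).preimage hc
  have hKcl : ∀ m, IsClosed (K m) := by
    intro m
    have : K m = ({x | bpre x σ₀.length = σ₀} ∩ {x | T (bpre x m)}) := rfl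
    rw [this]
    exact (hclosed _ (fun σ => σ = σ₀)).inter (hclosed m T)
  have hne : (⋂ m, K m).Nonempty := by
    apply IsCompact.nonempty_iInter_of_sequence_nonempty_isCompact_isClosed K
    · rintro m x ⟨h2, h3⟩
      exact ⟨h2, hT _ _ (bpre_prefix x (Nat.le_succ m)) h3⟩
    · intro m
      obtain ⟨τ, hτ, hpre, hTτ⟩ := h (max m σ₀.length) (le_max_right _ _)
      have hl := mem_SS.1 hτ
      have hp : ∀ k, k ≤ τ.length → bpre (fun n => τ.getD n false) k = τ.take k := by
        intro k hk
        apply List.ext_getElem?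
        intro i
        by_cases hi : i < k
        · rw [bpre_getElem? _ hi, List.getElem?_take_of_lt hi, List.getD_eq_getElem?_getD,
            List.getElem?_eq_getElem (lt_of_lt_of_le hi hk)]
          simp
        · rw [List.getElem?_eq_none, List.getElem?_eq_none] <;> simp [bpre_length] <;> omega
      refine ⟨fun n => τ.getD n false, ?_, ?_⟩
      · rw [hp _ (by rw [hl]; exact le_max_right _ _)]
        obtain ⟨s, rfl⟩ := hpre
        simp
      · rw [hp _ (by rw [hl]; exact le_max_left _ _)]
        exact hT _ _ (List.take_prefix _ _) hTτ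
    · exact (hKcl 0).isCompact
    · exact hKcl
  obtain ⟨x, hx⟩ := hne
  rw [Set.mem_iInter] at hx
  exact ⟨x, (hx 0).1, fun m => (hx m).2⟩

/-! ### primitive recursion helpers -/

theorem bex_lt {β : Type} [Primcodable β] {R : ℕ → β → Prop} (hf : PrimrecRel R) :
    PrimrecRel fun n (y : β) => ∃ x < n, R x y :=
  (hf.exists_mem_list.comp (Primrec.list_range.comp Primrec.fst) Primrec.snd).of_eq (by simp)

theorem ball_lt {β : Type} [Primcodable β] {R : ℕ → β → Prop} (hf : PrimrecRel R) :
    PrimrecRel fun n (y : β) => ∀ x < n, R x y :=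
  (hf.forall_mem_list.comp (Primrec.list_range.comp Primrec.fst) Primrec.snd).of_eq (by simp)

theorem primrec_bins : Primrec bins := by
  have hin : Primrec (fun σ : List Bool => [σ ++ [false], σ ++ [true]]) :=
    Primrec.list_cons.comp (Primrec.list_append.comp Primrec.id (Primrec.const [false]))
      (Primrec.list_cons.comp (Primrec.list_append.comp Primrec.id (Primrec.const [true]))
        (Primrec.const []))
  have hstep : Primrec (fun l : List (List Bool) => l.flatMap fun σ => [σ ++ [false], σ ++ [true]]) :=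
    Primrec.list_flatMap Primrec.id (Primrec₂.mk (hin.comp Primrec.snd))
  have hh : Primrec₂ (fun (_ : ℕ) (l : List (List Bool)) =>
      l.flatMap fun σ => [σ ++ [false], σ ++ [true]]) := Primrec₂.mk (hstep.comp Primrec.snd)
  refine (Primrec.nat_rec₁ [[]] hh).of_eq fun n => ?_
  induction n with
  | zero => rfl
  | succ n ih =>
    show (List.flatMap _ _) = _
    rw [bins, ih]

theorem primrec_countP {α β : Type} [Primcodable α] [Primcodable β] {f : α → List β}
    {p : α → β → Bool} (hf : Primrec f) (hp : Primrec₂ p) :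
    Primrec (fun a => (f a).countP (p a)) := by
  have hh : Primrec₂ (fun (a : α) (q : β × ℕ) => cond (p a q.1) (q.2 + 1) q.2) :=
    Primrec₂.mk (Primrec.cond (hp.comp Primrec.fst (Primrec.fst.comp Primrec.snd))
      (Primrec.succ.comp (Primrec.snd.comp Primrec.snd)) (Primrec.snd.comp Primrec.snd))
  refine (Primrec.list_foldr hf (Primrec.const 0) hh).of_eq fun a => ?_
  induction f a with
  | nil => rfl
  | cons b l ih =>
    rw [List.foldr_cons, ih, List.countP_cons]
    cases p a b <;> simp

theorem primrec_prefix : PrimrecRel (fun σ τ : List Bool => σ <+: τ) := by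
  have h : PrimrecRel (fun σ τ : List Bool => σ = τ.take σ.length) :=
    Primrec.eq.comp Primrec.fst
      (Primrec.list_take.comp (Primrec.list_length.comp Primrec.fst) Primrec.snd)
  exact PrimrecRel.of_eq h (fun σ τ => List.prefix_iff_eq_take.symm)

theorem primrec_two_pow : Primrec (fun n : ℕ => 2 ^ n) := by
  have hh : Primrec₂ (fun (_ : ℕ) (m : ℕ) => 2 * m) :=
    Primrec₂.mk (Primrec.nat_mul.comp (Primrec.const 2) Primrec.snd)
  refine (Primrec.nat_rec₁ 1 hh).of_eq fun n => ?_
  induction n with
  | zero => rfl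
  | succ n ih =>
    show 2 * _ = _
    rw [ih, pow_succ, mul_comm]

end Pool.Agent.H.MP_ad67df_lc
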