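import Mathlib
import Pool.Agent.H.MP_ad67df_lc.Str

set_option autoImplicit false

namespace Pool.Agent.H.MP_ad67df_lc

open Nat.Partrec (Code)

/-- monotone functional -/
def Mono (φ : List Bool → ℕ → Option ℕ) : Prop :=
  ∀ σ τ n v, σ <+: τ → φ σ n = some v → φ τ n = some v

/-- `0` codes undefined, `v + 1` codes `v` -/
def dec0 (w : ℕ) : Option ℕ := Nat.casesOn w none some

theorem dec0_encode (o : Option ℕ) : dec0 (Encodable.encode o) = o := by
  cases o <;> rfl

theorem primrec_dec0 : Primrec dec0 :=
  (Primrec.nat_casesOn₁ none Primrec.option_some).of_eq fun n => by cases n <;> rfl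

/-- raw computation at the string `τ` -/
def RR (e : ℕ) (τ : List Bool) (n : ℕ) : Option ℕ :=
  ((List.range (τ.length + 1)).filterMap (fun k =>
    (Code.evaln τ.length (Denumerable.ofNat Code e) (Encodable.encode (τ.take k, n))).bind
      dec0)).head?

/-- the universal functional -/
def Phi (e : ℕ) (σ : List Bool) (n : ℕ) : Option ℕ :=
  ((List.range (σ.length + 1)).filterMap (fun m => RR e (σ.take m) n)).head?

theorem primrec_RR : Primrec (fun p : (ℕ × List Bool) × ℕ => RR p.1.1 p.1.2 p.2) := by
  have hf : Primrec (fun p : (ℕ × List Bool) × ℕ => List.range (p.1.2.length + 1)) :=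
    Primrec.list_range.comp (Primrec.succ.comp
      (Primrec.list_length.comp (Primrec.snd.comp Primrec.fst)))
  have hg : Primrec₂ (fun (p : (ℕ × List Bool) × ℕ) (k : ℕ) =>
      (Code.evaln p.1.2.length (Denumerable.ofNat Code p.1.1)
        (Encodable.encode (p.1.2.take k, p.2))).bind dec0) := by
    refine Primrec₂.mk (Primrec.option_bind ?_ (Primrec₂.mk (primrec_dec0.comp Primrec.snd)))
    refine Code.primrec_evaln.comp (Primrec.pair (Primrec.pair ?_ ?_) ?_)
    · exact Primrec.list_length.comp (Primrec.snd.comp (Primrec.fst.comp Primrec.fst))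
    · exact (Primrec.ofNat Code).comp (Primrec.fst.comp (Primrec.fst.comp Primrec.fst))
    · exact Primrec.encode.comp (Primrec.pair (Primrec.list_take.comp Primrec.snd
        (Primrec.snd.comp (Primrec.fst.comp Primrec.fst))) (Primrec.snd.comp Primrec.fst))
  exact Primrec.list_head?.comp (Primrec.listFilterMap hf hg)

theorem primrec_Phi : Primrec (fun p : (ℕ × List Bool) × ℕ => Phi p.1.1 p.1.2 p.2) := by
  have hf : Primrec (fun p : (ℕ × List Bool) × ℕ => List.range (p.1.2.length + 1)) :=
    Primrec.list_range.comp (Primrec.succ.comp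
      (Primrec.list_length.comp (Primrec.snd.comp Primrec.fst)))
  have hg : Primrec₂ (fun (p : (ℕ × List Bool) × ℕ) (m : ℕ) =>
      RR p.1.1 (p.1.2.take m) p.2) := by
    refine Primrec₂.mk (primrec_RR.comp (Primrec.pair (Primrec.pair ?_ ?_) ?_))
    · exact Primrec.fst.comp (Primrec.fst.comp Primrec.fst)
    · exact Primrec.list_take.comp Primrec.snd (Primrec.snd.comp (Primrec.fst.comp Primrec.fst))
    · exact Primrec.snd.comp Primrec.fst
  exact Primrec.list_head?.comp (Primrec.listFilterMap hf hg)

theorem head?_append_some {α : Type} {l l' : List α} {a : α} (h : l.head? = some a) :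
    (l ++ l').head? = some a := by
  cases l with
  | nil => simp at h
  | cons b l => simpa using h

theorem Phi_mono {e : ℕ} {σ τ : List Bool} {n v : ℕ} (h : σ <+: τ) (hv : Phi e σ n = some v) :
    Phi e τ n = some v := by
  unfold Phi at hv ⊢
  obtain ⟨ρ, rfl⟩ := h
  have h1 : List.range ((σ ++ ρ).length + 1) = List.range (σ.length + 1) ++
      (List.range ρ.length).map (fun x => (σ.length + 1) + x) := by
    have : (σ ++ ρ).length + 1 = (σ.length + 1) + ρ.length := by simp; omega
    rw [this, List.range_add]
  rw [h1, List.filterMap_append]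
  apply head?_append_some
  rw [← hv]
  congr 1
  apply List.filterMap_congr
  intro m hm
  rw [List.mem_range] at hm
  rw [List.take_append_of_le_length (by omega)]

theorem Phi_isSome_mono {e : ℕ} {σ τ : List Bool} {n : ℕ} (h : σ <+: τ)
    (hv : (Phi e σ n).isSome = true) : (Phi e τ n).isSome = true := by
  obtain ⟨v, hv⟩ := Option.isSome_iff_exists.1 hv
  rw [Phi_mono h hv]; rfl

theorem mem_of_head? {α : Type} {l : List α} {a : α} (h : l.head? = some a) : a ∈ l := by
  cases l with
  | nil => simp at h
  | cons b l => simp at h; simp [h]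

theorem head?_of_mem {α : Type} {l : List α} {a : α} (h : a ∈ l) : ∃ b, l.head? = some b := by
  cases l with
  | nil => simp at h
  | cons b l => exact ⟨b, rfl⟩

/-- every computable monotone functional has an index -/
theorem exists_index (φ : List Bool → ℕ → Option ℕ) (hc : Computable₂ φ) (hm : Mono φ) :
    ∃ e, ∀ (A : ℕ → Bool) (n v : ℕ),
      (∃ s, Phi e (bpre A s) n = some v) ↔ (∃ s, φ (bpre A s) n = some v) := by
  have hp : Nat.Partrec (fun a : ℕ => Part.bind
      (Part.ofOption (Encodable.decode (α := List Bool × ℕ) a))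
      fun p => (Part.some (φ p.1 p.2)).map Encodable.encode) := hc
  obtain ⟨c, hcode⟩ := Code.exists_code.1 hp
  have heval : ∀ (σ : List Bool) (n : ℕ),
      Code.eval c (Encodable.encode (σ, n)) = Part.some (Encodable.encode (φ σ n)) := by
    intro σ n
    rw [hcode]
    simp
  have hR : ∀ (τ : List Bool) (n v : ℕ), RR (Encodable.encode c) τ n = some v →
      φ τ n = some v := by
    intro τ n v h
    have h1 := mem_of_head? h
    rw [List.mem_filterMap] at h1
    obtain ⟨k, _, hk2⟩ := h1
    rw [Denumerable.ofNat_encode] at hk2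
    rw [Option.bind_eq_some_iff] at hk2
    obtain ⟨w, hw1, hw2⟩ := hk2
    have h2 := Code.evaln_sound hw1
    rw [heval] at h2
    rw [Part.mem_some_iff] at h2
    rw [h2, dec0_encode] at hw2
    exact hm _ _ _ _ (List.take_prefix _ _) hw2
  have hPhi : ∀ (τ : List Bool) (n v : ℕ), Phi (Encodable.encode c) τ n = some v →
      φ τ n = some v := by
    intro τ n v h
    have h1 := mem_of_head? h
    rw [List.mem_filterMap] at h1
    obtain ⟨k, _, hk2⟩ := h1
    exact hm _ _ _ _ (List.take_prefix _ _) (hR _ _ _ hk2)
  refine ⟨Encodable.encode c, fun A n v => ⟨?_, ?_⟩⟩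
  · rintro ⟨s, hs⟩
    exact ⟨s, hPhi _ _ _ hs⟩
  · rintro ⟨s, hs⟩
    have h1 : Encodable.encode (φ (bpre A s) n) ∈ Code.eval c (Encodable.encode (bpre A s, n)) := by
      rw [heval]; exact Part.mem_some _
    obtain ⟨K, hK⟩ := Code.evaln_complete.1 h1
    have hK' : Code.evaln (max K s) c (Encodable.encode (bpre A s, n)) =
        some (Encodable.encode (φ (bpre A s) n)) := Code.evaln_mono (le_max_left _ _) hK
    have h2 : ∃ v', RR (Encodable.encode c) (bpre A (max K s)) n = some v' := by
      unfold RR
      refine head?_of_mem (a := v) ?_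
      rw [List.mem_filterMap]
      refine ⟨s, ?_, ?_⟩
      · rw [List.mem_range, bpre_length]
        have := le_max_right K s
        omega
      · rw [bpre_length, bpre_take A (le_max_right K s), Denumerable.ofNat_encode, hK', hs]
        rfl
    obtain ⟨v', hv'⟩ := h2
    have h3 : ∃ v'', Phi (Encodable.encode c) (bpre A (max K s)) n = some v'' := by
      unfold Phi
      refine head?_of_mem (a := v') ?_
      rw [List.mem_filterMap]
      refine ⟨max K s, ?_, ?_⟩
      · rw [List.mem_range, bpre_length]; omega
      · rw [bpre_take A le_rfl]; exact hv'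
    obtain ⟨v'', hv''⟩ := h3
    refine ⟨max K s, ?_⟩
    have h4 := hPhi _ _ _ hv''
    have h5 := hm _ _ _ _ (bpre_prefix A (le_max_right K s)) hs
    rw [h4] at h5
    rw [hv'', h5]

end Pool.Agent.H.MP_ad67df_lc
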