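import Mathlib
import Pool.Agent.H.MP_ad67df_lc.Str
import Pool.Agent.H.MP_ad67df_lc.Fun

set_option autoImplicit false

namespace Pool.Agent.H.MP_ad67df_lc

open Nat.Partrec (Code)

/-- list of divergence constraints -/
abbrev Cst := List (ℕ × ℕ)

/-- constraint `(i, n)` says: functional number `(unpair i).1` is not defined on all of `[0, n)` -/
def refuted (c : ℕ × ℕ) (σ : List Bool) : Prop :=
  ∀ m < c.2, (Phi c.1.unpair.1 σ m).isSome = true

instance : DecidableRel refuted := fun c σ => by unfold refuted; infer_instance

/-- no constraint is refuted -/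
def inC (l : Cst) (σ : List Bool) : Prop := ∀ c ∈ l, ¬ refuted c σ

instance : DecidableRel inC := fun c σ => by unfold inC; infer_instance

theorem refuted_mono {c : ℕ × ℕ} {σ τ : List Bool} (h : σ <+: τ) (hr : refuted c σ) :
    refuted c τ := fun m hm => Phi_isSome_mono h (hr m hm)

theorem inC_anti {l : Cst} {σ τ : List Bool} (h : σ <+: τ) (hr : inC l τ) :
    inC l σ := fun c hc hcon => hr c hc (refuted_mono h hcon)

theorem primrec_refuted : PrimrecRel refuted := by
  have hR : PrimrecRel (fun (m : ℕ) (y : (ℕ × ℕ) × List Bool) =>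
      (Phi y.1.1.unpair.1 y.2 m).isSome = true) := by
    have h1 : Primrec (fun x : ℕ × ((ℕ × ℕ) × List Bool) =>
        (Phi x.2.1.1.unpair.1 x.2.2 x.1).isSome) := by
      refine Primrec.option_isSome.comp (primrec_Phi.comp (Primrec.pair (Primrec.pair ?_ ?_) ?_))
      · exact Primrec.fst.comp (Primrec.unpair.comp
          (Primrec.fst.comp (Primrec.fst.comp Primrec.snd)))
      · exact Primrec.snd.comp Primrec.snd
      · exact Primrec.fst
    exact Primrec.eq.comp h1 (Primrec.const true)
  have h2 := (ball_lt hR).comp (f := fun p : (ℕ × ℕ) × List Bool => p.1.2) (g := fun p => p)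
    (Primrec.snd.comp Primrec.fst) Primrec.id
  exact h2

theorem primrec_inC : PrimrecRel inC := by
  have hR : PrimrecRel (fun (c : ℕ × ℕ) (σ : List Bool) => ¬ refuted c σ) := primrec_refuted.not
  exact PrimrecRel.forall_mem_list hR

/-- strings enumerated by the `e`-th test at its level `e + 3` -/
def UU (e s : ℕ) : List (List Bool) :=
  (List.range s).filterMap fun k =>
    (Code.evaln s (Denumerable.ofNat Code e) k).bind fun w =>
      (Encodable.decode (α := Option (ℕ × List Bool)) w).bind fun o =>
        o.bind fun p => if p.1 = e + 3 then some p.2 else none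

theorem primrec_UU : Primrec (fun p : ℕ × ℕ => UU p.1 p.2) := by
  refine Primrec.listFilterMap (Primrec.list_range.comp Primrec.snd) (Primrec₂.mk ?_)
  refine Primrec.option_bind ?_ (Primrec₂.mk ?_)
  · refine Code.primrec_evaln.comp (Primrec.pair (Primrec.pair ?_ ?_) ?_)
    · exact Primrec.snd.comp Primrec.fst
    · exact (Primrec.ofNat Code).comp (Primrec.fst.comp Primrec.fst)
    · exact Primrec.snd
  · refine Primrec.option_bind (Primrec.decode.comp Primrec.snd) (Primrec₂.mk ?_)
    refine Primrec.option_bind Primrec.snd (Primrec₂.mk ?_)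
    refine Primrec.ite ?_ (Primrec.option_some.comp (Primrec.snd.comp Primrec.snd))
      (Primrec.const none)
    refine Primrec.eq.comp (Primrec.fst.comp Primrec.snd) ?_
    exact Primrec.nat_add.comp (Primrec.fst.comp (Primrec.fst.comp (Primrec.fst.comp
      (Primrec.fst.comp Primrec.fst)))) (Primrec.const 3)

/-- `σ` extends a string enumerated into the `e`-th test at level `e + 3` -/
def pre1 (e s : ℕ) (σ : List Bool) : Prop := ∃ ρ ∈ UU e s, ρ <+: σ

instance (e s : ℕ) : DecidablePred (pre1 e s) := fun σ => by unfold pre1; infer_instance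

theorem primrec_pre1 : PrimrecPred (fun p : (ℕ × ℕ) × List Bool => pre1 p.1.1 p.1.2 p.2) := by
  have h := PrimrecRel.exists_mem_list primrec_prefix
  exact h.comp (f := fun p : (ℕ × ℕ) × List Bool => UU p.1.1 p.1.2) (g := fun p => p.2)
    (primrec_UU.comp Primrec.fst) Primrec.snd

/-- the measure check -/
def ok1 (e s : ℕ) : Prop := (bins s).countP (fun τ => decide (pre1 e s τ)) * 2 ^ (e + 3) ≤ 2 ^ s

instance : DecidableRel ok1 := fun e s => by unfold ok1; infer_instance

theorem primrec_ok1 : PrimrecRel ok1 := by
  have hc : Primrec (fun p : ℕ × ℕ => (bins p.2).countP (fun τ => decide (pre1 p.1 p.2 τ))) := by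
    refine primrec_countP (primrec_bins.comp Primrec.snd) (Primrec₂.mk ?_)
    exact primrec_pre1.decide
  exact Primrec.nat_le.comp
    (Primrec.nat_mul.comp hc (primrec_two_pow.comp (Primrec.nat_add.comp Primrec.fst
      (Primrec.const 3)))) (primrec_two_pow.comp Primrec.snd)

/-- the class number `i` -/
def inNb (i : ℕ) (σ : List Bool) : Bool :=
  Option.casesOn (Encodable.decode (α := List Bool × Cst) i) false
    (fun p => decide (p.1 <+: σ ∧ inC p.2 σ))

theorem primrec_inNb : Primrec₂ inNb := by
  have h1 : PrimrecPred (fun x : (ℕ × List Bool) × (List Bool × Cst) =>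
      x.2.1 <+: x.1.2 ∧ inC x.2.2 x.1.2) :=
    (primrec_prefix.comp (Primrec.fst.comp Primrec.snd) (Primrec.snd.comp Primrec.fst)).and
      (primrec_inC.comp (Primrec.snd.comp Primrec.snd) (Primrec.snd.comp Primrec.fst))
  exact Primrec₂.mk (Primrec.option_casesOn (Primrec.decode.comp Primrec.fst)
    (Primrec.const false) (Primrec₂.mk h1.decide))

theorem inNb_encode (ρ : List Bool) (l : Cst) (σ : List Bool) :
    inNb (Encodable.encode (ρ, l)) σ = true ↔ ρ <+: σ ∧ inC l σ := by
  simp [inNb]

/-- removal condition at level `s` -/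
def killed (s : ℕ) (L : List (List Bool)) (σ : List Bool) : Prop :=
  (∃ e < s, ok1 e s ∧ pre1 e s σ) ∨
    (∃ i < s + 1, inNb i σ = true ∧ L.countP (inNb i) * 2 ^ (i + 3) ≤ 2 ^ s)

instance (s : ℕ) (L : List (List Bool)) : DecidablePred (killed s L) := fun σ => by
  unfold killed; infer_instance

theorem primrec_killed : PrimrecPred (fun p : (ℕ × List (List Bool)) × List Bool =>
    killed p.1.1 p.1.2 p.2) := by
  have hR1 : PrimrecRel (fun (e : ℕ) (y : (ℕ × List (List Bool)) × List Bool) =>
      ok1 e y.1.1 ∧ pre1 e y.1.1 y.2) := by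
    refine PrimrecPred.and ?_ ?_
    · exact primrec_ok1.comp Primrec.fst (Primrec.fst.comp (Primrec.fst.comp Primrec.snd))
    · exact primrec_pre1.comp (f := fun x : ℕ × ((ℕ × List (List Bool)) × List Bool) =>
        ((x.1, x.2.1.1), x.2.2)) (Primrec.pair (Primrec.pair Primrec.fst
          (Primrec.fst.comp (Primrec.fst.comp Primrec.snd))) (Primrec.snd.comp Primrec.snd))
  have hR2 : PrimrecRel (fun (i : ℕ) (y : (ℕ × List (List Bool)) × List Bool) =>
      inNb i y.2 = true ∧ y.1.2.countP (inNb i) * 2 ^ (i + 3) ≤ 2 ^ y.1.1) := by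
    refine PrimrecPred.and ?_ ?_
    · exact Primrec.eq.comp (primrec_inNb.comp Primrec.fst (Primrec.snd.comp Primrec.snd))
        (Primrec.const true)
    · have hc : Primrec (fun x : ℕ × ((ℕ × List (List Bool)) × List Bool) =>
          x.2.1.2.countP (inNb x.1)) := by
        refine primrec_countP (Primrec.snd.comp (Primrec.fst.comp Primrec.snd)) (Primrec₂.mk ?_)
        exact primrec_inNb.comp (Primrec.fst.comp Primrec.fst) Primrec.snd
      exact Primrec.nat_le.comp (Primrec.nat_mul.comp hc (primrec_two_pow.comp
        (Primrec.nat_add.comp Primrec.fst (Primrec.const 3))))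
        (primrec_two_pow.comp (Primrec.fst.comp (Primrec.fst.comp Primrec.snd)))
  have h1 := (bex_lt hR1).comp (f := fun p : (ℕ × List (List Bool)) × List Bool => p.1.1)
    (g := fun p => p) (Primrec.fst.comp Primrec.fst) Primrec.id
  have h2 := (bex_lt hR2).comp (f := fun p : (ℕ × List (List Bool)) × List Bool => p.1.1 + 1)
    (g := fun p => p) (Primrec.succ.comp (Primrec.fst.comp Primrec.fst)) Primrec.id
  exact h1.or h2

/-- next level -/
def treeStep (s : ℕ) (L : List (List Bool)) : List (List Bool) :=
  L.flatMap fun σ => if killed s L σ then [] else [σ ++ [false], σ ++ [true]]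

/-- levels of the tree -/
def treeL : ℕ → List (List Bool)
  | 0 => [[]]
  | s + 1 => treeStep s (treeL s)

theorem primrec_treeStep : Primrec₂ treeStep := by
  have hin : Primrec (fun σ : List Bool => [σ ++ [false], σ ++ [true]]) :=
    Primrec.list_cons.comp (Primrec.list_append.comp Primrec.id (Primrec.const [false]))
      (Primrec.list_cons.comp (Primrec.list_append.comp Primrec.id (Primrec.const [true]))
        (Primrec.const []))
  refine Primrec₂.mk (Primrec.list_flatMap Primrec.snd (Primrec₂.mk ?_))
  exact Primrec.ite primrec_killed (Primrec.const []) (hin.comp Primrec.snd)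

theorem primrec_treeL : Primrec treeL := by
  refine (Primrec.nat_rec₁ [[]] primrec_treeStep).of_eq fun n => ?_
  induction n with
  | zero => rfl
  | succ n ih =>
    show treeStep n _ = _
    rw [ih, treeL]

theorem mem_treeL_succ {s : ℕ} {τ : List Bool} : τ ∈ treeL (s + 1) ↔
    ∃ σ ∈ treeL s, ¬ killed s (treeL s) σ ∧ (τ = σ ++ [false] ∨ τ = σ ++ [true]) := by
  rw [treeL, treeStep, List.mem_flatMap]
  constructor
  · rintro ⟨σ, hσ, h⟩
    refine ⟨σ, hσ, ?_⟩
    by_cases hk : killed s (treeL s) σ
    · rw [if_pos hk] at h; exact absurd h (by simp)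
    · rw [if_neg hk] at h
      exact ⟨hk, by simpa using h⟩
  · rintro ⟨σ, hσ, hk, h⟩
    refine ⟨σ, hσ, ?_⟩
    rw [if_neg hk]
    simpa using h

theorem length_of_mem_treeL {s : ℕ} {τ : List Bool} (h : τ ∈ treeL s) : τ.length = s := by
  induction s generalizing τ with
  | zero => simpa [treeL] using h
  | succ s ih =>
    obtain ⟨σ, hσ, _, h | h⟩ := mem_treeL_succ.1 h
    · rw [h]; simp [ih hσ]
    · rw [h]; simp [ih hσ]

theorem treeL_nodup (s : ℕ) : (treeL s).Nodup := by
  induction s with
  | zero => simp [treeL]
  | succ s ih =>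
    have : treeL (s + 1) = ((treeL s).filter fun σ => decide (¬ killed s (treeL s) σ)).flatMap
        fun σ => [σ ++ [false], σ ++ [true]] := by
      rw [treeL, treeStep]
      generalize treeL s = K at *
      have key : ∀ M : List (List Bool), (M.flatMap fun σ => if killed s K σ then [] else
          [σ ++ [false], σ ++ [true]]) = (M.filter fun σ => decide (¬ killed s K σ)).flatMap
          fun σ => [σ ++ [false], σ ++ [true]] := by
        intro M
        induction M with
        | nil => rfl
        | cons a M ihM =>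
          rw [List.flatMap_cons, ihM, List.filter_cons]
          by_cases hk : killed s K a
          · simp [hk]
          · simp [hk]
      exact key K
    rw [this]
    exact nodup_children (ih.filter _)

/-- the level `s` of the tree as a finset -/
def TT (s : ℕ) : Finset (List Bool) := (treeL s).toFinset

theorem mem_TT {s : ℕ} {σ : List Bool} : σ ∈ TT s ↔ σ ∈ treeL s := by simp [TT]

theorem countP_treeL (s : ℕ) (p : List Bool → Bool) :
    (treeL s).countP p = ((TT s).filter fun σ => p σ = true).card :=
  countP_nodup_eq (treeL_nodup s) p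

theorem take_mem_treeL {s k : ℕ} {τ : List Bool} (h : τ ∈ treeL s) (hk : k ≤ s) :
    τ.take k ∈ treeL k := by
  induction s generalizing τ with
  | zero =>
    have : k = 0 := by omega
    subst this
    simp [treeL]
  | succ s ih =>
    rcases Nat.lt_or_ge k (s + 1) with hlt | hge
    · obtain ⟨σ, hσ, _, h'⟩ := mem_treeL_succ.1 h
      have hl := length_of_mem_treeL hσ
      have : τ.take k = σ.take k := by
        rcases h' with h' | h' <;>
        · rw [h', List.take_append_of_le_length (by omega)]
      rw [this]
      exact ih hσ (by omega)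
    · have : k = s + 1 := by omega
      subst this
      rw [List.take_of_length_le (by rw [length_of_mem_treeL h])]
      exact h

theorem not_killed_of_mem {s k : ℕ} {τ : List Bool} (h : τ ∈ treeL s) (hk : k < s) :
    ¬ killed k (treeL k) (τ.take k) := by
  have h1 := take_mem_treeL h (show k + 1 ≤ s from hk)
  obtain ⟨σ, hσ, hkill, h'⟩ := mem_treeL_succ.1 h1
  have hl := length_of_mem_treeL hσ
  have : τ.take k = σ := by
    have h2 : τ.take k = (τ.take (k + 1)).take k := by
      rw [List.take_take]; congr 1; omega
    rw [h2]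
    rcases h' with h' | h' <;>
    · rw [h', List.take_append_of_le_length (by omega), ← hl, List.take_length]
  rw [this]
  exact hkill

/-- membership in the class `[T]` -/
def inT (X : ℕ → Bool) : Prop := ∀ s, bpre X s ∈ treeL s

end Pool.Agent.H.MP_ad67df_lc
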