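import Mathlib
import Pool.Agent.H.MP_ad67df_lc.Tree

set_option autoImplicit false

namespace Pool.Agent.H.MP_ad67df_lc

open Nat.Partrec (Code)

theorem card_eq_ncard (L : ℕ) (Q : List Bool → Prop) [DecidablePred Q] :
    ((SS L).filter Q).card = {τ : Fin L → Bool | Q (List.ofFn τ)}.ncard := by
  rw [← Set.ncard_image_of_injective _ (List.ofFn_injective (n := L)), ← Set.ncard_coe_finset]
  congr 1
  ext σ
  simp only [Finset.coe_filter, mem_SS, Set.mem_image]
  constructor
  · rintro ⟨h1, h2⟩
    subst h1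
    refine ⟨fun i => σ[i], ?_, ?_⟩
    · show Q _
      simpa using h2
    · simp
  · rintro ⟨τ, h, rfl⟩
    exact ⟨by simp, h⟩

/-- Martin-Löf randomness as in the frozen statement -/
def RandF (A : ℕ → Bool) : Prop :=
  ∀ f : ℕ → Option (ℕ × List Bool), Computable f →
      (∀ n L : ℕ, {τ : Fin L → Bool | ∃ k : ℕ, ∃ σ : List Bool,
          f k = some (n, σ) ∧ List.IsPrefix σ (List.ofFn τ)}.ncard * 2 ^ n ≤ 2 ^ L) →
      ∃ n : ℕ, ∀ k : ℕ, ∀ σ : List Bool, f k = some (n, σ) →
        List.ofFn (fun i : Fin σ.length => A i.val) ≠ σ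

theorem mem_UU {e s : ℕ} {ρ : List Bool} : ρ ∈ UU e s ↔ ∃ k < s, ∃ w,
    Code.evaln s (Denumerable.ofNat Code e) k = some w ∧
      Encodable.decode (α := Option (ℕ × List Bool)) w = some (some (e + 3, ρ)) := by
  rw [UU, List.mem_filterMap]
  constructor
  · rintro ⟨k, hk, h⟩
    rw [List.mem_range] at hk
    rw [Option.bind_eq_some_iff] at h
    obtain ⟨w, hw, h⟩ := h
    rw [Option.bind_eq_some_iff] at h
    obtain ⟨o, ho, h⟩ := h
    rw [Option.bind_eq_some_iff] at h
    obtain ⟨p, hp, h⟩ := h
    by_cases h3 : p.1 = e + 3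
    · rw [if_pos h3] at h
      refine ⟨k, hk, w, hw, ?_⟩
      rw [ho, hp, ← h3, ← Option.some_injective _ h]
    · rw [if_neg h3] at h
      exact absurd h (by simp)
  · rintro ⟨k, hk, w, hw, h⟩
    refine ⟨k, List.mem_range.2 hk, ?_⟩
    rw [hw]
    simp [h]

theorem UU_mono {e s s' : ℕ} (h : s ≤ s') {ρ : List Bool} (hρ : ρ ∈ UU e s) : ρ ∈ UU e s' := by
  rw [mem_UU] at hρ ⊢
  obtain ⟨k, hk, w, hw, hd⟩ := hρ
  exact ⟨k, lt_of_lt_of_le hk h, w, Code.evaln_mono h hw, hd⟩

theorem pre1_mono {e s s' : ℕ} (h : s ≤ s') {σ τ : List Bool} (hσ : σ <+: τ)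
    (hp : pre1 e s σ) : pre1 e s' τ := by
  obtain ⟨ρ, hρ, hpre⟩ := hp
  exact ⟨ρ, UU_mono h hρ, hpre.trans hσ⟩

theorem UU_sound {e : ℕ} {f : ℕ → Option (ℕ × List Bool)}
    (he : ∀ k, Code.eval (Denumerable.ofNat Code e) k = Part.some (Encodable.encode (f k)))
    {s : ℕ} {ρ : List Bool} (h : ρ ∈ UU e s) : ∃ k, f k = some (e + 3, ρ) := by
  rw [mem_UU] at h
  obtain ⟨k, _, w, hw, hd⟩ := h
  refine ⟨k, ?_⟩
  have h1 := Code.evaln_sound hw
  rw [he, Part.mem_some_iff] at h1
  rw [h1, Encodable.encodek] at hd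
  exact Option.some_injective _ hd

theorem UU_complete {e : ℕ} {f : ℕ → Option (ℕ × List Bool)}
    (he : ∀ k, Code.eval (Denumerable.ofNat Code e) k = Part.some (Encodable.encode (f k)))
    {k : ℕ} {ρ : List Bool} (h : f k = some (e + 3, ρ)) : ∃ s, ρ ∈ UU e s := by
  have h1 : Encodable.encode (f k) ∈ Code.eval (Denumerable.ofNat Code e) k := by
    rw [he]; exact Part.mem_some _
  obtain ⟨s, hs⟩ := Code.evaln_complete.1 h1
  refine ⟨max s (k + 1), ?_⟩
  rw [mem_UU]
  refine ⟨k, by omega, _, Code.evaln_mono (le_max_left _ _) hs, ?_⟩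
  rw [Encodable.encodek, h]

/-- (T1) every member of the class is random -/
theorem inT_rand {X : ℕ → Bool} (hX : inT X) : RandF X := by
  intro f hf hmeas
  have hf' : Nat.Partrec (fun a : ℕ => Part.bind
      (Part.ofOption (Encodable.decode (α := ℕ) a))
      fun p => (Part.some (f p)).map Encodable.encode) := hf
  obtain ⟨c, hc⟩ := Code.exists_code.1 hf'
  have he : ∀ k, Code.eval (Denumerable.ofNat Code (Encodable.encode c)) k =
      Part.some (Encodable.encode (f k)) := by
    intro k
    rw [Denumerable.ofNat_encode, hc]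
    simp
  generalize Encodable.encode c = e at he
  refine ⟨e + 3, fun k σ hk heq => ?_⟩
  obtain ⟨s0, hs0⟩ := UU_complete he hk
  let s := max (max s0 σ.length) (e + 1)
  have h1 : σ ∈ UU e s := UU_mono (le_trans (le_max_left _ _) (le_max_left _ _)) hs0
  have h2 : pre1 e s (bpre X s) :=
    ⟨σ, h1, bpre_inj_le heq (le_trans (le_max_right _ _) (le_max_left _ _))⟩
  have h3 : ok1 e s := by
    rw [ok1, countP_bins]
    refine le_trans (Nat.mul_le_mul_right _ ?_) (hmeas (e + 3) s)
    simp only [decide_eq_true_eq]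
    rw [card_eq_ncard]
    apply Set.ncard_le_ncard _ (Set.toFinite _)
    rintro τ ⟨ρ, hρ, hpre⟩
    obtain ⟨k', hk'⟩ := UU_sound he hρ
    exact ⟨k', ρ, hk', hpre⟩
  have h4 := not_killed_of_mem (hX (s + 1)) (Nat.lt_succ_self s)
  rw [bpre_take X (Nat.le_succ s)] at h4
  exact h4 (Or.inl ⟨e, lt_of_lt_of_le (Nat.lt_succ_self e) (le_max_right _ _), h3, h2⟩)

theorem geom_sum_le (N : ℕ) (a : ℕ → ℕ) (s : ℕ) (h : ∀ e < s, a e * 2 ^ (e + 1) ≤ N) :
    ∑ e ∈ Finset.range s, a e ≤ N := by
  have key : (∑ e ∈ Finset.range s, a e) * 2 ^ s + N ≤ N * 2 ^ s := by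
    induction s with
    | zero => simp
    | succ s ih =>
      rw [Finset.sum_range_succ]
      have h1 := ih (fun e he => h e (by omega))
      have h2 := h s (Nat.lt_succ_self s)
      rw [pow_succ] at h2 ⊢
      nlinarith
  have h2 : 0 < 2 ^ s := by positivity
  have h3 : (∑ e ∈ Finset.range s, a e) * 2 ^ s ≤ N * 2 ^ s := by omega
  exact Nat.le_of_mul_le_mul_right h3 h2

/-- kills by the tests -/
def K1 (e s : ℕ) : Finset (List Bool) := by
  classical
  exact (SS s).filter fun τ => ∃ t < s, e < t ∧ ok1 e t ∧ pre1 e t (τ.take t)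

/-- kills by the classes -/
def K2 (i s : ℕ) : Finset (List Bool) := by
  classical
  exact (SS s).filter fun τ => ∃ t < s, i < t + 1 ∧ τ.take t ∈ treeL t ∧
    inNb i (τ.take t) = true ∧ (treeL t).countP (inNb i) * 2 ^ (i + 3) ≤ 2 ^ t

theorem card_filter_take {s t : ℕ} (h : t ≤ s) (P : List Bool → Prop) [DecidablePred P] :
    ((SS s).filter fun τ => P (τ.take t)).card = ((SS t).filter P).card * 2 ^ (s - t) := by
  rw [← card_take_mem s t h ((SS t).filter P) (Finset.filter_subset _ _)]
  congr 1
  apply Finset.filter_congr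
  intro τ hτ
  rw [Finset.mem_filter]
  exact ⟨fun hp => ⟨take_mem_SS hτ h, hp⟩, fun hp => hp.2⟩

theorem card_K1 (e s : ℕ) : (K1 e s).card * 2 ^ (e + 3) ≤ 2 ^ s := by
  classical
  by_cases hex : ∃ t, t < s ∧ ok1 e t
  · -- the largest such stage
    obtain ⟨t, ⟨hts, htok⟩, hmax⟩ : ∃ t, (t < s ∧ ok1 e t) ∧ ∀ t', (t' < s ∧ ok1 e t') → t' ≤ t := by
      have hfin : ((Finset.range s).filter (fun t => ok1 e t)).Nonempty := by
        obtain ⟨t, h1, h2⟩ := hex
        exact ⟨t, by simp [h1, h2]⟩
      refine ⟨((Finset.range s).filter (fun t => ok1 e t)).max' hfin, ?_, fun t' ht' => ?_⟩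
      · have := Finset.max'_mem _ hfin
        simpa using this
      · exact Finset.le_max' _ _ (by simp [ht'])
    have h1 : (K1 e s).card ≤ ((SS s).filter fun τ => pre1 e t (τ.take t)).card := by
      apply Finset.card_le_card
      intro τ hτ
      rw [K1, Finset.mem_filter] at hτ
      obtain ⟨hτs, t', ht's, _, hok, hpre⟩ := hτ
      rw [Finset.mem_filter]
      refine ⟨hτs, ?_⟩
      have hle := hmax t' ⟨ht's, hok⟩
      refine pre1_mono hle ?_ hpre
      have : τ.take t' = (τ.take t).take t' := by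
        rw [List.take_take]; congr 1; omega
      rw [this]
      exact List.take_prefix _ _
    rw [card_filter_take (le_of_lt hts)] at h1
    have h2 : ((SS t).filter (pre1 e t)).card * 2 ^ (e + 3) ≤ 2 ^ t := by
      have := htok
      rw [ok1, countP_bins] at this
      simpa only [decide_eq_true_eq] using this
    calc (K1 e s).card * 2 ^ (e + 3)
        ≤ (((SS t).filter (pre1 e t)).card * 2 ^ (s - t)) * 2 ^ (e + 3) :=
          Nat.mul_le_mul_right _ h1
      _ = (((SS t).filter (pre1 e t)).card * 2 ^ (e + 3)) * 2 ^ (s - t) := by ring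
      _ ≤ 2 ^ t * 2 ^ (s - t) := Nat.mul_le_mul_right _ h2
      _ = 2 ^ s := by rw [← pow_add]; congr 1; omega
  · have : K1 e s = ∅ := by
      rw [K1, Finset.filter_eq_empty_iff]
      rintro τ _ ⟨t, h1, _, h2, _⟩
      exact hex ⟨t, h1, h2⟩
    rw [this]; simp

theorem inNb_true {i : ℕ} {σ : List Bool} (h : inNb i σ = true) :
    ∃ p : List Bool × Cst, Encodable.decode (α := List Bool × Cst) i = some p ∧
      p.1 <+: σ ∧ inC p.2 σ := by
  unfold inNb at h
  cases hd : Encodable.decode (α := List Bool × Cst) i with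
  | none => rw [hd] at h; exact absurd h (by simp)
  | some p => rw [hd] at h; exact ⟨p, rfl, by simpa using h⟩

theorem card_K2 (i s : ℕ) : (K2 i s).card * 2 ^ (i + 3) ≤ 2 ^ s := by
  classical
  cases hd : Encodable.decode (α := List Bool × Cst) i with
  | none =>
    have : K2 i s = ∅ := by
      rw [K2, Finset.filter_eq_empty_iff]
      rintro τ _ ⟨t, _, _, _, h, _⟩
      obtain ⟨p, hp, _⟩ := inNb_true h
      rw [hd] at hp
      exact absurd hp (by simp)
    rw [this]; simp
  | some p =>
    obtain ⟨ρ, l⟩ := p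
    have hiff : ∀ σ, inNb i σ = true ↔ ρ <+: σ ∧ inC l σ := by
      intro σ
      unfold inNb
      rw [hd]
      simp
    by_cases hex : ∃ t, i < t + 1 ∧ ρ.length ≤ t ∧
        (treeL t).countP (inNb i) * 2 ^ (i + 3) ≤ 2 ^ t
    · obtain ⟨h1, h2, h3⟩ := Nat.find_spec hex
      have hmin := fun t (ht : t < Nat.find hex) => Nat.find_min hex ht
      generalize Nat.find hex = t at *
      -- all kills happen at level `t`
      by_cases hts : t ≤ s
      · have h4 : (K2 i s).card ≤ ((SS s).filter fun τ => τ.take t ∈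
            (TT t).filter (fun σ => inNb i σ = true)).card := by
          apply Finset.card_le_card
          intro τ hτ
          rw [K2, Finset.mem_filter] at hτ
          obtain ⟨hτs, t', ht's, hit', hmem, hin, hcnt⟩ := hτ
          rw [Finset.mem_filter]
          refine ⟨hτs, ?_⟩
          have hlen : (τ.take t').length = t' := length_of_mem_treeL hmem
          have hρ : ρ.length ≤ t' := by
            have := ((hiff _).1 hin).1.length_le
            omega
          have htt' : t ≤ t' := by
            by_contra hcon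
            exact hmin t' (by omega) ⟨hit', hρ, hcnt⟩
          have htake : τ.take t = (τ.take t').take t := by
            rw [List.take_take]; congr 1; omega
          have hpre : τ.take t <+: τ.take t' := by
            rw [htake]; exact List.take_prefix _ _
          rw [Finset.mem_filter, mem_TT]
          refine ⟨?_, ?_⟩
          · rw [htake]; exact take_mem_treeL hmem htt'
          · rw [hiff]
            refine ⟨?_, inC_anti hpre ((hiff _).1 hin).2⟩
            refine List.prefix_of_prefix_length_le ((hiff _).1 hin).1 hpre ?_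
            rw [htake, List.length_take, hlen]; omega
        rw [card_take_mem s t hts _ (by
          intro σ hσ
          rw [Finset.mem_filter, mem_TT] at hσ
          rw [mem_SS]
          exact length_of_mem_treeL hσ.1)] at h4
        rw [countP_treeL] at h3
        calc (K2 i s).card * 2 ^ (i + 3)
            ≤ (((TT t).filter (fun σ => inNb i σ = true)).card * 2 ^ (s - t)) * 2 ^ (i + 3) :=
              Nat.mul_le_mul_right _ h4
          _ = (((TT t).filter (fun σ => inNb i σ = true)).card * 2 ^ (i + 3)) * 2 ^ (s - t) := by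
              ring
          _ ≤ 2 ^ t * 2 ^ (s - t) := Nat.mul_le_mul_right _ h3
          _ = 2 ^ s := by rw [← pow_add]; congr 1; omega
      · have : K2 i s = ∅ := by
          rw [K2, Finset.filter_eq_empty_iff]
          rintro τ _ ⟨t', ht's, hit', hmem, hin, hcnt⟩
          have hlen : (τ.take t').length = t' := length_of_mem_treeL hmem
          have hρ : ρ.length ≤ t' := by
            have := ((hiff _).1 hin).1.length_le
            omega
          exact hmin t' (by omega) ⟨hit', hρ, hcnt⟩
        rw [this]; simp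
    · have : K2 i s = ∅ := by
        rw [K2, Finset.filter_eq_empty_iff]
        rintro τ _ ⟨t', ht's, hit', hmem, hin, hcnt⟩
        have hlen : (τ.take t').length = t' := length_of_mem_treeL hmem
        have hρ : ρ.length ≤ t' := by
          have := ((hiff _).1 hin).1.length_le
          omega
        exact hex ⟨t', hit', hρ, hcnt⟩
      rw [this]; simp

theorem dead_sub (s : ℕ) : ∀ τ ∈ SS s, τ ∉ treeL s →
    τ ∈ (Finset.range s).biUnion (fun e => K1 e s) ∪ (Finset.range s).biUnion (fun i => K2 i s) := by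
  classical
  intro τ hτ hn
  have hl := mem_SS.1 hτ
  -- first level at which the path dies
  have hex : ∃ t, τ.take t ∉ treeL t := ⟨s, by rwa [List.take_of_length_le (by omega)]⟩
  have h1 := Nat.find_spec hex
  have hle : Nat.find hex ≤ s := Nat.find_min' hex (by rwa [List.take_of_length_le (by omega)])
  have h2 := fun t (ht : t < Nat.find hex) => Nat.find_min hex ht
  generalize Nat.find hex = t at *
  cases t with
  | zero => exact absurd h1 (by simp [treeL])
  | succ t =>
    have h3 : τ.take t ∈ treeL t := by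
      by_contra hcon
      exact h2 t (Nat.lt_succ_self t) hcon
    have h4 : killed t (treeL t) (τ.take t) := by
      by_contra hk
      apply h1
      rw [mem_treeL_succ]
      refine ⟨τ.take t, h3, hk, ?_⟩
      have : τ.take (t + 1) = τ.take t ++ [τ[t]] := by
        rw [List.take_add_one]
        simp [List.getElem?_eq_getElem (show t < τ.length by omega)]
      rw [this]
      cases τ[t]
      · left; rfl
      · right; rfl
    rw [Finset.mem_union, Finset.mem_biUnion, Finset.mem_biUnion]
    rcases h4 with ⟨e, he, hok, hpre⟩ | ⟨i, hi, hin, hcnt⟩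
    · left
      refine ⟨e, Finset.mem_range.2 (by omega), ?_⟩
      rw [K1, Finset.mem_filter]
      exact ⟨hτ, t, by omega, he, hok, hpre⟩
    · right
      refine ⟨i, Finset.mem_range.2 (by omega), ?_⟩
      rw [K2, Finset.mem_filter]
      exact ⟨hτ, t, by omega, hi, h3, hin, hcnt⟩

theorem alive_exists (s : ℕ) : ∃ τ ∈ SS s, τ ∈ treeL s := by
  classical
  by_contra hcon
  push Not at hcon
  have h1 : (SS s).card ≤ ((Finset.range s).biUnion (fun e => K1 e s) ∪
      (Finset.range s).biUnion (fun i => K2 i s)).card :=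
    Finset.card_le_card fun τ hτ => dead_sub s τ hτ (hcon τ hτ)
  have h2 := Finset.card_union_le ((Finset.range s).biUnion (fun e => K1 e s))
    ((Finset.range s).biUnion (fun i => K2 i s))
  have h3 : ((Finset.range s).biUnion (fun e => K1 e s)).card ≤
      ∑ e ∈ Finset.range s, (K1 e s).card := Finset.card_biUnion_le
  have h4 : ((Finset.range s).biUnion (fun i => K2 i s)).card ≤
      ∑ i ∈ Finset.range s, (K2 i s).card := Finset.card_biUnion_le
  have h5 : ∑ e ∈ Finset.range s, 4 * (K1 e s).card ≤ 2 ^ s := by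
    apply geom_sum_le
    intro e _
    have := card_K1 e s
    calc 4 * (K1 e s).card * 2 ^ (e + 1) = (K1 e s).card * 2 ^ (e + 3) := by
          rw [pow_succ, pow_succ, pow_succ, pow_succ]; ring
      _ ≤ 2 ^ s := this
  have h6 : ∑ i ∈ Finset.range s, 4 * (K2 i s).card ≤ 2 ^ s := by
    apply geom_sum_le
    intro e _
    have := card_K2 e s
    calc 4 * (K2 e s).card * 2 ^ (e + 1) = (K2 e s).card * 2 ^ (e + 3) := by
          rw [pow_succ, pow_succ, pow_succ, pow_succ]; ring
      _ ≤ 2 ^ s := this
  rw [← Finset.mul_sum] at h5 h6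
  rw [card_SS] at h1
  have h7 : 0 < 2 ^ s := by positivity
  omega

/-- (T3) the class is nonempty -/
theorem inT_nonempty : ∃ X, inT X := by
  obtain ⟨X, _, hX⟩ := konig (fun τ => τ ∈ treeL τ.length)
    (fun σ τ h hτ => by
      rw [List.prefix_iff_eq_take.1 h]
      have := take_mem_treeL hτ (h.length_le)
      rwa [List.length_take, min_eq_left h.length_le]) []
    (fun L _ => by
      obtain ⟨τ, h1, h2⟩ := alive_exists L
      refine ⟨τ, h1, List.nil_prefix, ?_⟩
      rw [mem_SS.1 h1]; exact h2)
  refine ⟨X, fun s => ?_⟩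
  have := hX s
  rwa [bpre_length] at this

end Pool.Agent.H.MP_ad67df_lc
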