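import Mathlib
import Pool.Agent.H.MP_ad67df_lc.Tree2

set_option autoImplicit false

namespace Pool.Agent.H.MP_ad67df_lc

/-- `X` is in the class `[T] ∩ C_l` -/
def inTC (l : Cst) (X : ℕ → Bool) : Prop := inT X ∧ ∀ k, inC l (bpre X k)

/-- `σ` is extendible within `[T] ∩ C_l` -/
def Ext (σ : List Bool) (l : Cst) : Prop := ∃ X, inTC l X ∧ bpre X σ.length = σ

theorem Ext.inC {σ : List Bool} {l : Cst} (h : Ext σ l) : inC l σ := by
  obtain ⟨X, hX, hσ⟩ := h
  have := hX.2 σ.length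
  rwa [hσ] at this

theorem Ext.take {σ : List Bool} {l : Cst} (h : Ext σ l) {ρ : List Bool} (hρ : ρ <+: σ) :
    Ext ρ l := by
  obtain ⟨X, hX, hσ⟩ := h
  refine ⟨X, hX, ?_⟩
  rw [← hσ] at hρ
  exact (prefix_bpre hρ).symm

theorem konig_TC (ρ : List Bool) (l : Cst) (Q : List Bool → Prop)
    (hQ : ∀ σ τ, σ <+: τ → Q τ → Q σ)
    (h : ∀ L, ρ.length ≤ L → ∃ τ ∈ treeL L, ρ <+: τ ∧ inC l τ ∧ Q τ) :
    ∃ X, inTC l X ∧ bpre X ρ.length = ρ ∧ ∀ m, Q (bpre X m) := by
  obtain ⟨X, hρ, hX⟩ := konig (fun τ => τ ∈ treeL τ.length ∧ inC l τ ∧ Q τ)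
    (fun σ τ h hτ => by
      refine ⟨?_, inC_anti h hτ.2.1, hQ _ _ h hτ.2.2⟩
      rw [List.prefix_iff_eq_take.1 h]
      have := take_mem_treeL hτ.1 (h.length_le)
      rwa [List.length_take, min_eq_left h.length_le]) ρ
    (fun L hL => by
      obtain ⟨τ, h1, h2, h3, h4⟩ := h L hL
      have hl := length_of_mem_treeL h1
      refine ⟨τ, mem_SS.2 hl, h2, ?_, h3, h4⟩
      rw [hl]; exact h1)
  refine ⟨X, ⟨fun s => ?_, fun k => (hX k).2.1⟩, hρ, fun m => (hX m).2.2⟩
  have := (hX s).1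
  rwa [bpre_length] at this

theorem dead_of_not_Ext {η : List Bool} {l : Cst} (h : ¬ Ext η l) :
    ∃ S, ∀ s, S ≤ s → ∀ τ ∈ treeL s, η <+: τ → ¬ inC l τ := by
  by_contra hcon
  apply h
  obtain ⟨X, h1, h2, _⟩ := konig_TC η l (fun _ => True) (fun _ _ _ _ => trivial) (by
    intro L hL
    by_contra hn
    apply hcon
    refine ⟨L, fun s hs τ hτ hη hC => hn ?_⟩
    refine ⟨τ.take L, take_mem_treeL hτ hs, ?_, inC_anti (List.take_prefix _ _) hC, trivial⟩
    refine List.prefix_of_prefix_length_le hη (List.take_prefix _ _) ?_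
    rw [List.length_take, length_of_mem_treeL hτ]
    omega)
  exact ⟨X, h1, h2⟩

/-- (T2) -/
theorem count_big {X : ℕ → Bool} {l : Cst} {ρ : List Bool} (hX : inTC l X)
    (hρ : bpre X ρ.length = ρ) {s : ℕ} (h1 : Encodable.encode (ρ, l) ≤ s) (h2 : ρ.length ≤ s) :
    2 ^ s < ((TT s).filter fun σ => ρ <+: σ ∧ inC l σ).card *
      2 ^ (Encodable.encode (ρ, l) + 3) := by
  have h3 := not_killed_of_mem (hX.1 (s + 1)) (Nat.lt_succ_self s)
  rw [bpre_take X (Nat.le_succ s)] at h3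
  by_contra hcon
  apply h3
  right
  refine ⟨Encodable.encode (ρ, l), by omega, ?_, ?_⟩
  · rw [inNb_encode]
    exact ⟨bpre_inj_le hρ h2, hX.2 s⟩
  · rw [countP_treeL]
    simp only [inNb_encode]
    omega

theorem length_lt_of_Ext {ρ : List Bool} {l : Cst} (h : Ext ρ l) :
    ρ.length < Encodable.encode (ρ, l) + 3 := by
  obtain ⟨X, hX, hρ⟩ := h
  let s := max (Encodable.encode (ρ, l)) ρ.length
  have h1 := count_big hX hρ (s := s) (le_max_left _ _) (le_max_right _ _)
  have h2 : ((TT s).filter fun σ => ρ <+: σ ∧ inC l σ).card * 2 ^ ρ.length ≤ 2 ^ s := by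
    refine le_trans (Nat.mul_le_mul_right _ (Finset.card_le_card ?_)) (card_prefix_le s ρ)
    intro σ hσ
    rw [Finset.mem_filter, mem_TT] at hσ
    rw [Finset.mem_filter, mem_SS]
    exact ⟨length_of_mem_treeL hσ.1, hσ.2.1⟩
  have h3 := lt_of_le_of_lt h2 h1
  have h4 := Nat.lt_of_mul_lt_mul_left h3
  exact (Nat.pow_lt_pow_iff_right (by norm_num)).1 h4

/-- extendible strings of length `L` above `ρ` -/
noncomputable def EE (ρ : List Bool) (l : Cst) (L : ℕ) : Finset (List Bool) := by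
  classical
  exact (SS L).filter fun η => ρ <+: η ∧ Ext η l

theorem mem_EE {ρ : List Bool} {l : Cst} {L : ℕ} {η : List Bool} :
    η ∈ EE ρ l L ↔ η.length = L ∧ ρ <+: η ∧ Ext η l := by
  classical
  rw [EE, Finset.mem_filter, mem_SS]

theorem two_le_card_EE {ρ : List Bool} {l : Cst} (h : Ext ρ l) :
    1 < (EE ρ l (Encodable.encode (ρ, l) + 4)).card := by
  classical
  by_contra hcon
  push Not at hcon
  set lam := Encodable.encode (ρ, l) + 4 with hlam
  have hlen := length_lt_of_Ext h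
  obtain ⟨X, hX, hρ⟩ := h
  -- the extendible string along `X`
  have hη : bpre X lam ∈ EE ρ l lam := by
    rw [mem_EE]
    refine ⟨bpre_length _ _, bpre_inj_le hρ (by omega), X, hX, by rw [bpre_length]⟩
  have huniq : ∀ η ∈ EE ρ l lam, η = bpre X lam := by
    intro η h'
    exact (Finset.card_le_one.1 hcon) η h' _ hη
  -- all others die
  have hdead : ∀ η ∈ SS lam, ∃ S, η ≠ bpre X lam → ρ <+: η →
      ∀ s, S ≤ s → ∀ τ ∈ treeL s, η <+: τ → ¬ inC l τ := by
    intro η hηS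
    by_cases hE : Ext η l
    · refine ⟨0, fun hne hpre => ?_⟩
      exact absurd (huniq η (mem_EE.2 ⟨mem_SS.1 hηS, hpre, hE⟩)) hne
    · obtain ⟨S, hS⟩ := dead_of_not_Ext hE
      exact ⟨S, fun _ _ => hS⟩
  choose! S hS using hdead
  let s := (SS lam).sup S + lam
  have h1 := count_big hX hρ (s := s) (by omega) (by omega)
  have h2 : ((TT s).filter fun σ => ρ <+: σ ∧ inC l σ).card * 2 ^ (bpre X lam).length ≤ 2 ^ s := by
    refine le_trans (Nat.mul_le_mul_right _ (Finset.card_le_card ?_))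
      (card_prefix_le s (bpre X lam))
    intro σ hσ
    rw [Finset.mem_filter, mem_TT] at hσ
    obtain ⟨hσ1, hσ2, hσ3⟩ := hσ
    have hl := length_of_mem_treeL hσ1
    rw [Finset.mem_filter, mem_SS]
    refine ⟨hl, ?_⟩
    by_contra hne
    have hne' : σ.take lam ≠ bpre X lam := by
      intro heq
      apply hne
      rw [← heq]
      exact List.take_prefix _ _
    have hmem : σ.take lam ∈ SS lam := by
      rw [mem_SS, List.length_take]; omega
    have hpre : ρ <+: σ.take lam := by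
      refine List.prefix_of_prefix_length_le hσ2 (List.take_prefix _ _) ?_
      rw [mem_SS.1 hmem]; omega
    refine hS _ hmem hne' hpre s ?_ σ hσ1 (List.take_prefix _ _) hσ3
    have : S (σ.take lam) ≤ (SS lam).sup S := Finset.le_sup hmem
    omega
  rw [bpre_length] at h2
  have h3 := lt_of_le_of_lt h2 h1
  have h4 := Nat.lt_of_mul_lt_mul_left h3
  have h5 := (Nat.pow_lt_pow_iff_right (by norm_num)).1 h4
  omega

end Pool.Agent.H.MP_ad67df_lc
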