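import Mathlib
import Pool.Agent.H.MP_ad67df_lc.Ext

set_option autoImplicit false

namespace Pool.Agent.H.MP_ad67df_lc

/-- functional `j` at `τ` computes (at least) the string `z` -/
def cov (j : ℕ) (τ z : List Bool) : Prop :=
  ∀ m < z.length, Phi j τ m = some (z.getD m false).toNat

instance (j : ℕ) : DecidableRel (cov j) := fun τ z => by unfold cov; infer_instance

theorem cov_mono {j : ℕ} {σ τ z : List Bool} (h : σ <+: τ) (hc : cov j σ z) : cov j τ z :=
  fun m hm => Phi_mono h (hc m hm)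

theorem cov_inj {j : ℕ} {τ z z' : List Bool} (h : cov j τ z) (h' : cov j τ z')
    (hl : z.length = z'.length) : z = z' := by
  apply List.ext_getElem hl
  intro m h1 h2
  have e1 := h m h1
  have e2 := h' m h2
  rw [e1] at e2
  have e3 := Option.some_injective _ e2
  rw [List.getD_eq_getElem?_getD, List.getD_eq_getElem?_getD, List.getElem?_eq_getElem h1,
    List.getElem?_eq_getElem h2] at e3
  simp only [Option.getD_some] at e3
  cases h5 : z[m] <;> cases h6 : z'[m] <;> rw [h5, h6] at e3 <;> simp at e3 ⊢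

theorem primrec_cov (j : ℕ) : PrimrecRel (cov j) := by
  have hR : PrimrecRel (fun (m : ℕ) (y : List Bool × List Bool) =>
      Phi j y.1 m = some (y.2.getD m false).toNat) := by
    refine Primrec.eq.comp ?_ ?_
    · exact primrec_Phi.comp (Primrec.pair (Primrec.pair (Primrec.const j)
        (Primrec.fst.comp Primrec.snd)) Primrec.fst)
    · exact Primrec.option_some.comp ((Primrec.dom_bool Bool.toNat).comp
        ((Primrec.list_getD false).comp (Primrec.snd.comp Primrec.snd) Primrec.fst))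
  have h2 := (ball_lt hR).comp (f := fun p : List Bool × List Bool => p.2.length)
    (g := fun p => p) (Primrec.list_length.comp Primrec.snd) Primrec.id
  exact h2

/-- the test -/
def tst (j : ℕ) (x : (ℕ × ℕ) × (ℕ × List Bool)) : Option (ℕ × List Bool) :=
  if x.2.2.length = 2 * x.1.2 + x.1.1 + 4 ∧
      2 ^ x.2.1 ≤ (bins x.2.1).countP (fun τ => decide (cov j τ x.2.2)) * 2 ^ (x.1.2 + 3)
  then some (x.1.1, x.2.2) else none

theorem primrec_tst (j : ℕ) : Primrec (tst j) := by
  unfold tst
  have hc : Primrec (fun x : (ℕ × ℕ) × (ℕ × List Bool) =>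
      (bins x.2.1).countP (fun τ => decide (cov j τ x.2.2))) := by
    refine primrec_countP (primrec_bins.comp (Primrec.fst.comp Primrec.snd)) (Primrec₂.mk ?_)
    exact ((primrec_cov j).comp Primrec.snd (Primrec.snd.comp (Primrec.snd.comp
      Primrec.fst))).decide
  refine Primrec.ite (PrimrecPred.and ?_ ?_) ?_ (Primrec.const none)
  · refine Primrec.eq.comp (Primrec.list_length.comp (Primrec.snd.comp Primrec.snd)) ?_
    exact Primrec.nat_add.comp (Primrec.nat_add.comp (Primrec.nat_mul.comp (Primrec.const 2)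
      (Primrec.snd.comp Primrec.fst)) (Primrec.fst.comp Primrec.fst)) (Primrec.const 4)
  · refine Primrec.nat_le.comp (primrec_two_pow.comp (Primrec.fst.comp Primrec.snd)) ?_
    exact Primrec.nat_mul.comp hc (primrec_two_pow.comp (Primrec.nat_add.comp
      (Primrec.snd.comp Primrec.fst) (Primrec.const 3)))
  · exact Primrec.option_some.comp (Primrec.pair (Primrec.fst.comp Primrec.fst)
      (Primrec.snd.comp Primrec.snd))

/-- strings of length `2 i + c + 4` covered with large measure -/
noncomputable def VV (j c i : ℕ) : Finset (List Bool) := by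
  classical
  exact (SS (2 * i + c + 4)).filter fun z =>
    ∃ s, 2 ^ s ≤ ((SS s).filter fun τ => cov j τ z).card * 2 ^ (i + 3)

theorem mem_VV {j c i : ℕ} {z : List Bool} : z ∈ VV j c i ↔ z.length = 2 * i + c + 4 ∧
    ∃ s, 2 ^ s ≤ ((SS s).filter fun τ => cov j τ z).card * 2 ^ (i + 3) := by
  classical
  rw [VV, Finset.mem_filter, mem_SS]

theorem card_VV (j c i : ℕ) : (VV j c i).card ≤ 2 ^ (i + 3) := by
  classical
  have hs : ∀ z ∈ VV j c i, ∃ s, 2 ^ s ≤ ((SS s).filter fun τ => cov j τ z).card * 2 ^ (i + 3) :=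
    fun z hz => (mem_VV.1 hz).2
  choose! st hst using hs
  let S := (VV j c i).sup st
  have hS : ∀ z ∈ VV j c i, 2 ^ S ≤ ((SS S).filter fun τ => cov j τ z).card * 2 ^ (i + 3) := by
    intro z hz
    have h1 := hst z hz
    have hle : st z ≤ S := Finset.le_sup hz
    have h2 : ((SS (st z)).filter fun τ => cov j τ z).card * 2 ^ (S - st z) ≤
        ((SS S).filter fun τ => cov j τ z).card := by
      rw [← card_filter_take hle]
      apply Finset.card_le_card
      intro τ hτ
      rw [Finset.mem_filter] at hτ ⊢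
      exact ⟨hτ.1, cov_mono (List.take_prefix _ _) hτ.2⟩
    calc 2 ^ S = 2 ^ (st z) * 2 ^ (S - st z) := by rw [← pow_add]; congr 1; omega
      _ ≤ (((SS (st z)).filter fun τ => cov j τ z).card * 2 ^ (i + 3)) * 2 ^ (S - st z) :=
          Nat.mul_le_mul_right _ h1
      _ = (((SS (st z)).filter fun τ => cov j τ z).card * 2 ^ (S - st z)) * 2 ^ (i + 3) := by ring
      _ ≤ _ := Nat.mul_le_mul_right _ h2
  have hdisj : ((VV j c i).biUnion fun z => (SS S).filter fun τ => cov j τ z).card =
      ∑ z ∈ VV j c i, ((SS S).filter fun τ => cov j τ z).card := by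
    apply Finset.card_biUnion
    intro z hz z' hz' hne
    rw [Function.onFun, Finset.disjoint_left]
    intro τ h1 h2
    rw [Finset.mem_filter] at h1 h2
    apply hne
    apply cov_inj h1.2 h2.2
    rw [(mem_VV.1 hz).1, (mem_VV.1 hz').1]
  have hle : ((VV j c i).biUnion fun z => (SS S).filter fun τ => cov j τ z).card ≤ 2 ^ S := by
    rw [← card_SS S]
    apply Finset.card_le_card
    intro τ hτ
    rw [Finset.mem_biUnion] at hτ
    obtain ⟨z, _, hz⟩ := hτ
    exact (Finset.mem_filter.1 hz).1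
  have hsum : (VV j c i).card * 2 ^ S ≤ 2 ^ S * 2 ^ (i + 3) := by
    calc (VV j c i).card * 2 ^ S = ∑ _z ∈ VV j c i, 2 ^ S := by
          rw [Finset.sum_const, smul_eq_mul]
      _ ≤ ∑ z ∈ VV j c i, ((SS S).filter fun τ => cov j τ z).card * 2 ^ (i + 3) :=
          Finset.sum_le_sum hS
      _ = (∑ z ∈ VV j c i, ((SS S).filter fun τ => cov j τ z).card) * 2 ^ (i + 3) := by
          rw [Finset.sum_mul]
      _ ≤ 2 ^ S * 2 ^ (i + 3) := Nat.mul_le_mul_right _ (by rw [← hdisj]; exact hle)
  have h0 : 0 < 2 ^ S := by positivity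
  rw [mul_comm] at hsum
  exact Nat.le_of_mul_le_mul_left hsum h0

theorem exists_c {A : ℕ → Bool} (hA : RandF A) (j : ℕ) : ∃ c, ∀ i s,
    ((SS s).filter fun τ => cov j τ (bpre A (2 * i + c + 4))).card * 2 ^ (i + 3) < 2 ^ s := by
  classical
  have hcomp : Computable (fun k : ℕ => (Encodable.decode (α := (ℕ × ℕ) × (ℕ × List Bool)) k).bind
      (tst j)) :=
    (Primrec.option_bind Primrec.decode (Primrec₂.mk ((primrec_tst j).comp Primrec.snd))).to_comp
  have hspec : ∀ n σ, (∃ k, (Encodable.decode (α := (ℕ × ℕ) × (ℕ × List Bool)) k).bind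
      (tst j) = some (n, σ)) ↔ ∃ i, σ ∈ VV j n i := by
    intro n σ
    constructor
    · rintro ⟨k, hk⟩
      rw [Option.bind_eq_some_iff] at hk
      obtain ⟨x, _, hx⟩ := hk
      rw [tst] at hx
      split_ifs at hx with h
      have h1 := Option.some_injective _ hx
      rw [Prod.mk.injEq] at h1
      obtain ⟨h2, h3⟩ := h1
      refine ⟨x.1.2, ?_⟩
      rw [mem_VV, ← h2, ← h3]
      refine ⟨h.1, x.2.1, ?_⟩
      have := h.2
      rw [countP_bins] at this
      simpa only [decide_eq_true_eq] using this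
    · rintro ⟨i, hi⟩
      rw [mem_VV] at hi
      obtain ⟨h1, s, h2⟩ := hi
      refine ⟨Encodable.encode (((n, i), (s, σ)) : (ℕ × ℕ) × (ℕ × List Bool)), ?_⟩
      rw [Encodable.encodek, Option.bind_some, tst, if_pos]
      refine ⟨h1, ?_⟩
      rw [countP_bins]
      simpa only [decide_eq_true_eq] using h2
  obtain ⟨c, hc⟩ := hA _ hcomp (by
    intro c L
    rw [← card_eq_ncard L (fun τ => ∃ k : ℕ, ∃ σ : List Bool,
      (Encodable.decode (α := (ℕ × ℕ) × (ℕ × List Bool)) k).bind (tst j) = some (c, σ) ∧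
        List.IsPrefix σ τ)]
    have h1 : ((SS L).filter fun τ => ∃ k : ℕ, ∃ σ : List Bool,
      (Encodable.decode (α := (ℕ × ℕ) × (ℕ × List Bool)) k).bind (tst j) = some (c, σ) ∧
        List.IsPrefix σ τ).card ≤ ∑ i ∈ Finset.range L,
        ((SS L).filter fun τ => ∃ σ ∈ VV j c i, σ <+: τ).card := by
      refine le_trans (Finset.card_le_card ?_) Finset.card_biUnion_le
      intro τ hτ
      rw [Finset.mem_filter] at hτ
      obtain ⟨hτ, k, σ, hk, hpre⟩ := hτ
      obtain ⟨i, hi⟩ := (hspec c σ).1 ⟨k, hk⟩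
      rw [Finset.mem_biUnion]
      refine ⟨i, ?_, ?_⟩
      · have h1 := (mem_VV.1 hi).1
        have h2 := hpre.length_le
        rw [mem_SS.1 hτ] at h2
        rw [Finset.mem_range]; omega
      · rw [Finset.mem_filter]
        exact ⟨hτ, σ, hi, hpre⟩
    have h2 : ∑ i ∈ Finset.range L, ((SS L).filter fun τ => ∃ σ ∈ VV j c i, σ <+: τ).card * 2 ^ c ≤
        2 ^ L := by
      apply geom_sum_le
      intro i _
      by_cases hn : 2 * i + c + 4 ≤ L
      · have h3 : ((SS L).filter fun τ => ∃ σ ∈ VV j c i, σ <+: τ).card ≤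
            (VV j c i).card * 2 ^ (L - (2 * i + c + 4)) := by
          rw [← card_take_mem L (2 * i + c + 4) hn (VV j c i) (by
            intro z hz; rw [mem_SS]; exact (mem_VV.1 hz).1)]
          apply Finset.card_le_card
          intro τ hτ
          rw [Finset.mem_filter] at hτ ⊢
          obtain ⟨hτ, σ, hσ, hpre⟩ := hτ
          refine ⟨hτ, ?_⟩
          rw [← (mem_VV.1 hσ).1, ← List.prefix_iff_eq_take.1 hpre]
          exact hσ
        calc ((SS L).filter fun τ => ∃ σ ∈ VV j c i, σ <+: τ).card * 2 ^ c * 2 ^ (i + 1)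
            ≤ ((VV j c i).card * 2 ^ (L - (2 * i + c + 4))) * 2 ^ c * 2 ^ (i + 1) :=
              Nat.mul_le_mul_right _ (Nat.mul_le_mul_right _ h3)
          _ ≤ (2 ^ (i + 3) * 2 ^ (L - (2 * i + c + 4))) * 2 ^ c * 2 ^ (i + 1) :=
              Nat.mul_le_mul_right _ (Nat.mul_le_mul_right _
                (Nat.mul_le_mul_right _ (card_VV j c i)))
          _ = 2 ^ L := by
              rw [← pow_add, ← pow_add, ← pow_add]; congr 1; omega
      · have : ((SS L).filter fun τ => ∃ σ ∈ VV j c i, σ <+: τ) = ∅ := by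
          rw [Finset.filter_eq_empty_iff]
          rintro τ hτ ⟨σ, hσ, hpre⟩
          have h1 := (mem_VV.1 hσ).1
          have h2 := hpre.length_le
          rw [mem_SS.1 hτ] at h2
          omega
        rw [this]; simp
    calc _ ≤ (∑ i ∈ Finset.range L,
          ((SS L).filter fun τ => ∃ σ ∈ VV j c i, σ <+: τ).card) * 2 ^ c :=
          Nat.mul_le_mul_right _ h1
      _ = ∑ i ∈ Finset.range L,
          ((SS L).filter fun τ => ∃ σ ∈ VV j c i, σ <+: τ).card * 2 ^ c := Finset.sum_mul _ _ _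
      _ ≤ 2 ^ L := h2)
  refine ⟨c, fun i s => ?_⟩
  by_contra hcon
  push Not at hcon
  have h1 : bpre A (2 * i + c + 4) ∈ VV j c i := by
    rw [mem_VV, bpre_length]
    exact ⟨rfl, s, hcon⟩
  obtain ⟨k, hk⟩ := (hspec c _).2 ⟨i, h1⟩
  apply hc k _ hk
  show bpre A (bpre A (2 * i + c + 4)).length = _
  rw [bpre_length]

/-- a nonempty class contains an element for which functional `j` does not compute `A` -/
theorem exists_uncov {A : ℕ → Bool} {j c : ℕ}
    (hc : ∀ i s, ((SS s).filter fun τ => cov j τ (bpre A (2 * i + c + 4))).card *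
      2 ^ (i + 3) < 2 ^ s) {ρ : List Bool} {l : Cst} (h : Ext ρ l) :
    ∃ X, inTC l X ∧ bpre X ρ.length = ρ ∧
      ∀ k, ¬ cov j (bpre X k) (bpre A (2 * Encodable.encode (ρ, l) + c + 4)) := by
  obtain ⟨X, hX, hρ⟩ := h
  refine konig_TC ρ l (fun τ => ¬ cov j τ (bpre A (2 * Encodable.encode (ρ, l) + c + 4)))
    (fun σ τ hp hn hcon => hn (cov_mono hp hcon)) ?_
  intro L hL
  let s := max L (Encodable.encode (ρ, l))
  have h1 := count_big hX hρ (s := s) (le_max_right _ _) (le_trans hL (le_max_left _ _))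
  have h2 := hc (Encodable.encode (ρ, l)) s
  have h3 : ∃ τ ∈ (TT s).filter (fun σ => ρ <+: σ ∧ inC l σ),
      τ ∉ (SS s).filter fun τ => cov j τ (bpre A (2 * Encodable.encode (ρ, l) + c + 4)) := by
    by_contra hcon
    push Not at hcon
    have h4 := Finset.card_le_card (show (TT s).filter (fun σ => ρ <+: σ ∧ inC l σ) ⊆ _ from hcon)
    have h5 := Nat.mul_le_mul_right (2 ^ (Encodable.encode (ρ, l) + 3)) h4
    omega
  obtain ⟨τ, hτ, hn⟩ := h3
  rw [Finset.mem_filter, mem_TT] at hτ
  obtain ⟨hτ1, hτ2, hτ3⟩ := hτ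
  have hl := length_of_mem_treeL hτ1
  rw [Finset.mem_filter, not_and] at hn
  have hn' := hn (mem_SS.2 hl)
  have hLs : L ≤ s := le_max_left _ _
  refine ⟨τ.take L, take_mem_treeL hτ1 hLs, ?_, inC_anti (List.take_prefix _ _) hτ3,
    fun hcov => hn' (cov_mono (List.take_prefix _ _) hcov)⟩
  refine List.prefix_of_prefix_length_le hτ2 (List.take_prefix _ _) ?_
  rw [List.length_take, hl]
  omega

end Pool.Agent.H.MP_ad67df_lc
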