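import Mathlib
import Pool.Agent.H.MP_ad67df_lc.Rand

set_option autoImplicit false

namespace Pool.Agent.H.MP_ad67df_lc

/-- block length function -/
def FF (M : ℕ) : ℕ := (M + 2) * (M + 2)

/-- remove constraints, if refuted -/
def pop (σ : List Bool) : Cst → Option (ℕ × Cst)
  | [] => none
  | c :: l => Option.casesOn (pop σ l) (if refuted c σ then some (c.1, l) else none) some

/-- there is a live string to the left -/
def anyB (σ : List Bool) (l : Cst) (r lam : ℕ) : Prop :=
  ∃ τ ∈ treeL σ.length, σ.take r <+: τ ∧ inC l τ ∧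
    Encodable.encode (τ.take lam) < Encodable.encode (σ.take lam)

/-- there is a live string to the right -/
def anyA (σ : List Bool) (l : Cst) (r lam : ℕ) : Prop :=
  ∃ τ ∈ treeL σ.length, σ.take r <+: τ ∧ inC l τ ∧
    Encodable.encode (σ.take lam) < Encodable.encode (τ.take lam)

instance (σ : List Bool) (l : Cst) (r lam : ℕ) : Decidable (anyB σ l r lam) := by
  unfold anyB; infer_instance

instance (σ : List Bool) (l : Cst) (r lam : ℕ) : Decidable (anyA σ l r lam) := by
  unfold anyA; infer_instance

/-- coding length -/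
def lamf (ρ : List Bool) (l : Cst) : ℕ := Encodable.encode (ρ, l) + 4

/-- the bit read at `σ` (if any), where the current block starts at `r` -/
def det (σ : List Bool) (l : Cst) (r : ℕ) : Option Bool :=
  if lamf (σ.take r) l ≤ σ.length then
    if ¬ anyB σ l r (lamf (σ.take r) l) then some false
    else if ¬ anyA σ l r (lamf (σ.take r) l) then some true
    else none
  else none

/-- decoder states: output, constraints, block start, next attempt, its output length -/
abbrev St := List Bool × (Cst × (ℕ × (ℕ × ℕ)))

/-- new state after reading a bit -/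
def emit (b : Bool) (σ : List Bool) (st : St) : St :=
  if st.2.2.2.2 ≤ st.1.length + 1 then
    (st.1 ++ [b], ((st.2.2.2.1, 2 * Encodable.encode (σ, st.2.1) + st.2.2.2.1.unpair.2 + 4) ::
      st.2.1, (σ.length, (st.2.2.2.1 + 1, FF (st.1.length + 1)))))
  else (st.1 ++ [b], (st.2.1, (σ.length, (st.2.2.2.1, st.2.2.2.2))))

/-- one step of the decoder -/
def step (σ : List Bool) (st : St) : St :=
  Option.casesOn (pop σ st.2.1)
    (Option.casesOn (det σ st.2.1 st.2.2.1) st (fun b => emit b σ st))
    (fun p => (st.1, (p.2, (σ.length, (p.1 + 1, FF st.1.length)))))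

/-- initial state -/
def st0 : St := ([], ([], (0, (0, FF 0))))

/-- run the decoder on initial segments -/
def run (σ : List Bool) : ℕ → St
  | 0 => st0
  | k + 1 => step (σ.take (k + 1)) (run σ k)

/-- the decoder -/
def DD (σ : List Bool) : St := run σ σ.length

theorem primrec_FF : Primrec FF := by
  unfold FF
  have : Primrec (fun M : ℕ => M + 2) := Primrec.nat_add.comp Primrec.id (Primrec.const 2)
  exact Primrec.nat_mul.comp this this

theorem primrec_pop : Primrec₂ pop := by
  have hh : Primrec₂ (fun (p : List Bool × Cst) (q : (ℕ × ℕ) × (Cst × Option (ℕ × Cst))) =>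
      (Option.casesOn q.2.2 (if refuted q.1 p.1 then some (q.1.1, q.2.1) else none) some :
        Option (ℕ × Cst))) := by
    refine Primrec₂.mk (Primrec.option_casesOn (Primrec.snd.comp (Primrec.snd.comp Primrec.snd))
      (Primrec.ite ?_ ?_ (Primrec.const none)) (Primrec₂.mk (Primrec.option_some.comp Primrec.snd)))
    · exact primrec_refuted.comp (Primrec.fst.comp Primrec.snd) (Primrec.fst.comp Primrec.fst)
    · exact Primrec.option_some.comp (Primrec.pair (Primrec.fst.comp (Primrec.fst.comp Primrec.snd))
        (Primrec.fst.comp (Primrec.snd.comp Primrec.snd)))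
  have h := Primrec.list_rec (f := fun p : List Bool × Cst => p.2)
    (g := fun _ => (none : Option (ℕ × Cst))) Primrec.snd (Primrec.const none) hh
  refine Primrec₂.mk (h.of_eq fun p => ?_)
  obtain ⟨σ, l⟩ := p
  simp only
  induction l with
  | nil => rfl
  | cons c l ih =>
    rw [pop, ← ih]

theorem primrec_anyB : PrimrecPred (fun x : (List Bool × Cst) × (ℕ × ℕ) =>
    anyB x.1.1 x.1.2 x.2.1 x.2.2) := by
  have hR : PrimrecRel (fun (τ : List Bool) (x : (List Bool × Cst) × (ℕ × ℕ)) =>
      x.1.1.take x.2.1 <+: τ ∧ inC x.1.2 τ ∧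
      Encodable.encode (τ.take x.2.2) < Encodable.encode (x.1.1.take x.2.2)) := by
    refine PrimrecPred.and ?_ (PrimrecPred.and ?_ ?_)
    · refine primrec_prefix.comp ?_ Primrec.fst
      exact Primrec.list_take.comp (Primrec.fst.comp (Primrec.snd.comp Primrec.snd))
        (Primrec.fst.comp (Primrec.fst.comp Primrec.snd))
    · exact primrec_inC.comp (Primrec.snd.comp (Primrec.fst.comp Primrec.snd)) Primrec.fst
    · refine Primrec.nat_lt.comp (Primrec.encode.comp (Primrec.list_take.comp
        (Primrec.snd.comp (Primrec.snd.comp Primrec.snd)) Primrec.fst))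
        (Primrec.encode.comp (Primrec.list_take.comp
        (Primrec.snd.comp (Primrec.snd.comp Primrec.snd))
        (Primrec.fst.comp (Primrec.fst.comp Primrec.snd))))
  have h := (PrimrecRel.exists_mem_list hR).comp
    (f := fun x : (List Bool × Cst) × (ℕ × ℕ) => treeL x.1.1.length) (g := fun x => x)
    (primrec_treeL.comp (Primrec.list_length.comp (Primrec.fst.comp Primrec.fst))) Primrec.id
  exact h

theorem primrec_anyA : PrimrecPred (fun x : (List Bool × Cst) × (ℕ × ℕ) =>
    anyA x.1.1 x.1.2 x.2.1 x.2.2) := by
  have hR : PrimrecRel (fun (τ : List Bool) (x : (List Bool × Cst) × (ℕ × ℕ)) =>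
      x.1.1.take x.2.1 <+: τ ∧ inC x.1.2 τ ∧
      Encodable.encode (x.1.1.take x.2.2) < Encodable.encode (τ.take x.2.2)) := by
    refine PrimrecPred.and ?_ (PrimrecPred.and ?_ ?_)
    · refine primrec_prefix.comp ?_ Primrec.fst
      exact Primrec.list_take.comp (Primrec.fst.comp (Primrec.snd.comp Primrec.snd))
        (Primrec.fst.comp (Primrec.fst.comp Primrec.snd))
    · exact primrec_inC.comp (Primrec.snd.comp (Primrec.fst.comp Primrec.snd)) Primrec.fst
    · refine Primrec.nat_lt.comp (Primrec.encode.comp (Primrec.list_take.comp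
        (Primrec.snd.comp (Primrec.snd.comp Primrec.snd))
        (Primrec.fst.comp (Primrec.fst.comp Primrec.snd))))
        (Primrec.encode.comp (Primrec.list_take.comp
        (Primrec.snd.comp (Primrec.snd.comp Primrec.snd)) Primrec.fst))
  have h := (PrimrecRel.exists_mem_list hR).comp
    (f := fun x : (List Bool × Cst) × (ℕ × ℕ) => treeL x.1.1.length) (g := fun x => x)
    (primrec_treeL.comp (Primrec.list_length.comp (Primrec.fst.comp Primrec.fst))) Primrec.id
  exact h

theorem primrec_det : Primrec (fun x : (List Bool × Cst) × ℕ => det x.1.1 x.1.2 x.2) := by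
  unfold det
  have hlam : Primrec (fun x : (List Bool × Cst) × ℕ => lamf (x.1.1.take x.2) x.1.2) := by
    unfold lamf
    exact Primrec.nat_add.comp (Primrec.encode.comp (Primrec.pair (Primrec.list_take.comp
      Primrec.snd (Primrec.fst.comp Primrec.fst)) (Primrec.snd.comp Primrec.fst)))
      (Primrec.const 4)
  have harg : Primrec (fun x : (List Bool × Cst) × ℕ => (x.1, (x.2, lamf (x.1.1.take x.2) x.1.2))) :=
    Primrec.pair Primrec.fst (Primrec.pair Primrec.snd hlam)
  refine Primrec.ite ?_ (Primrec.ite ?_ (Primrec.const _) (Primrec.ite ?_ (Primrec.const _)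
    (Primrec.const _))) (Primrec.const _)
  · exact Primrec.nat_le.comp hlam (Primrec.list_length.comp (Primrec.fst.comp Primrec.fst))
  · exact (primrec_anyB.comp harg).not
  · exact (primrec_anyA.comp harg).not

theorem primrec_emit : Primrec (fun x : Bool × (List Bool × St) => emit x.1 x.2.1 x.2.2) := by
  unfold emit
  have hσ : Primrec (fun x : Bool × (List Bool × St) => x.2.1) := Primrec.fst.comp Primrec.snd
  have hst : Primrec (fun x : Bool × (List Bool × St) => x.2.2) := Primrec.snd.comp Primrec.snd
  have hout : Primrec (fun x : Bool × (List Bool × St) => x.2.2.1) := Primrec.fst.comp hst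
  have hl : Primrec (fun x : Bool × (List Bool × St) => x.2.2.2.1) :=
    Primrec.fst.comp (Primrec.snd.comp hst)
  have hi : Primrec (fun x : Bool × (List Bool × St) => x.2.2.2.2.2.1) :=
    Primrec.fst.comp (Primrec.snd.comp (Primrec.snd.comp (Primrec.snd.comp hst)))
  have hq : Primrec (fun x : Bool × (List Bool × St) => x.2.2.2.2.2.2) :=
    Primrec.snd.comp (Primrec.snd.comp (Primrec.snd.comp (Primrec.snd.comp hst)))
  have hlen : Primrec (fun x : Bool × (List Bool × St) => x.2.2.1.length + 1) :=
    Primrec.succ.comp (Primrec.list_length.comp hout)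
  have hout' : Primrec (fun x : Bool × (List Bool × St) => x.2.2.1 ++ [x.1]) :=
    Primrec.list_append.comp hout (Primrec.list_cons.comp Primrec.fst (Primrec.const []))
  have hσl : Primrec (fun x : Bool × (List Bool × St) => x.2.1.length) :=
    Primrec.list_length.comp hσ
  have hN : Primrec (fun x : Bool × (List Bool × St) =>
      2 * Encodable.encode (x.2.1, x.2.2.2.1) + x.2.2.2.2.2.1.unpair.2 + 4) :=
    Primrec.nat_add.comp (Primrec.nat_add.comp (Primrec.nat_mul.comp (Primrec.const 2)
      (Primrec.encode.comp (Primrec.pair hσ hl)))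
      (Primrec.snd.comp (Primrec.unpair.comp hi))) (Primrec.const 4)
  refine Primrec.ite (Primrec.nat_le.comp hq hlen) ?_ ?_
  · exact Primrec.pair hout' (Primrec.pair (Primrec.list_cons.comp (Primrec.pair hi hN) hl)
      (Primrec.pair hσl (Primrec.pair (Primrec.succ.comp hi) (primrec_FF.comp hlen))))
  · exact Primrec.pair hout' (Primrec.pair hl (Primrec.pair hσl (Primrec.pair hi hq)))

theorem primrec_step : Primrec₂ step := by
  unfold step
  have hst : Primrec (fun x : List Bool × St => x.2) := Primrec.snd
  have hl : Primrec (fun x : List Bool × St => x.2.2.1) :=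
    Primrec.fst.comp (Primrec.snd.comp hst)
  have hr : Primrec (fun x : List Bool × St => x.2.2.2.1) :=
    Primrec.fst.comp (Primrec.snd.comp (Primrec.snd.comp hst))
  refine Primrec₂.mk (Primrec.option_casesOn (primrec_pop.comp Primrec.fst hl)
    (Primrec.option_casesOn (primrec_det.comp (Primrec.pair (Primrec.pair Primrec.fst hl) hr))
      Primrec.snd (Primrec₂.mk ?_)) (Primrec₂.mk ?_))
  · exact primrec_emit.comp (Primrec.pair Primrec.snd (Primrec.pair (Primrec.fst.comp Primrec.fst)
      (Primrec.snd.comp Primrec.fst)))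
  · refine Primrec.pair (Primrec.fst.comp (Primrec.snd.comp Primrec.fst)) (Primrec.pair
      (Primrec.snd.comp Primrec.snd) (Primrec.pair
        (Primrec.list_length.comp (Primrec.fst.comp Primrec.fst)) (Primrec.pair
          (Primrec.succ.comp (Primrec.fst.comp Primrec.snd)) (primrec_FF.comp
            (Primrec.list_length.comp (Primrec.fst.comp (Primrec.snd.comp Primrec.fst)))))))

theorem primrec_DD : Primrec DD := by
  have hstep : Primrec₂ (fun (σ : List Bool) (q : ℕ × St) => step (σ.take (q.1 + 1)) q.2) :=
    Primrec₂.mk (primrec_step.comp (Primrec.list_take.comp (Primrec.succ.comp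
      (Primrec.fst.comp Primrec.snd)) Primrec.fst) (Primrec.snd.comp Primrec.snd))
  have h := Primrec.nat_rec' (f := fun σ : List Bool => σ.length) (g := fun _ => st0)
    Primrec.list_length (Primrec.const st0) hstep
  refine h.of_eq fun σ => ?_
  rw [DD]
  generalize σ.length = n
  induction n with
  | zero => rfl
  | succ n ih => rw [run, ← ih]

end Pool.Agent.H.MP_ad67df_lc
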