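import Mathlib
import Pool.Agent.H.MP_ad67df_lc.Dec

set_option autoImplicit false

namespace Pool.Agent.H.MP_ad67df_lc

theorem run_take (σ : List Bool) {k m : ℕ} (h : k ≤ m) : run (σ.take m) k = run σ k := by
  induction k with
  | zero => rfl
  | succ k ih =>
    rw [run, run, ih (by omega), List.take_take, min_eq_left h]

/-- the decoder along a sequence -/
def DX (X : ℕ → Bool) (k : ℕ) : St := DD (bpre X k)

theorem DX_zero (X : ℕ → Bool) : DX X 0 = st0 := rfl

theorem DX_succ (X : ℕ → Bool) (k : ℕ) : DX X (k + 1) = step (bpre X (k + 1)) (DX X k) := by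
  unfold DX DD
  rw [bpre_length, bpre_length, run]
  have h1 : (bpre X (k + 1)).take (k + 1) = bpre X (k + 1) := bpre_take X le_rfl
  have h2 := run_take (bpre X (k + 1)) (le_refl k)
  rw [bpre_take X (Nat.le_succ k)] at h2
  rw [h1, h2]

theorem DX_of_bpre {X : ℕ → Bool} {σ : List Bool} (h : bpre X σ.length = σ) :
    DX X σ.length = DD σ := by
  unfold DX; rw [h]

theorem pop_none {σ : List Bool} {l : Cst} (h : inC l σ) : pop σ l = none := by
  induction l with
  | nil => rfl
  | cons c l ih =>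
    have h1 : inC l σ := fun c' hc' => h c' (List.mem_cons_of_mem _ hc')
    rw [pop, ih h1]
    show (if refuted c σ then some (c.1, l) else none) = none
    rw [if_neg (h c List.mem_cons_self)]

theorem pop_suffix {σ : List Bool} {l : Cst} (h : inC l σ) (l1 : Cst) :
    pop σ (l1 ++ l) = none ∨ ∃ i l2, pop σ (l1 ++ l) = some (i, l2 ++ l) := by
  induction l1 with
  | nil => left; exact pop_none h
  | cons c l1 ih =>
    rw [List.cons_append, pop]
    rcases ih with h1 | ⟨i, l2, h1⟩
    · rw [h1]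
      show (if refuted c σ then some (c.1, l1 ++ l) else none) = none ∨
        ∃ i l2, (if refuted c σ then some (c.1, l1 ++ l) else none) = some (i, l2 ++ l)
      by_cases hr : refuted c σ
      · right
        exact ⟨c.1, l1, by rw [if_pos hr]⟩
      · left; rw [if_neg hr]
    · rw [h1]
      right
      exact ⟨i, l2, rfl⟩

theorem pop_hit {σ : List Bool} {l : Cst} {c : ℕ × ℕ} (h : inC l σ) (hr : refuted c σ)
    (l1 : Cst) : pop σ (l1 ++ c :: l) = some (c.1, l) := by
  induction l1 with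
  | nil =>
    rw [List.nil_append, pop, pop_none h]
    show (if refuted c σ then some (c.1, l) else none) = _
    rw [if_pos hr]
  | cons c' l1 ih =>
    rw [List.cons_append, pop, ih]

theorem step_none {σ : List Bool} {st : St} (h1 : pop σ st.2.1 = none)
    (h2 : det σ st.2.1 st.2.2.1 = none) : step σ st = st := by
  rw [step, h1, h2]

theorem step_emit {σ : List Bool} {st : St} {b : Bool} (h1 : pop σ st.2.1 = none)
    (h2 : det σ st.2.1 st.2.2.1 = some b) : step σ st = emit b σ st := by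
  rw [step, h1, h2]

theorem step_pop {σ : List Bool} {st : St} {p : ℕ × Cst} (h1 : pop σ st.2.1 = some p) :
    step σ st = (st.1, (p.2, (σ.length, (p.1 + 1, FF st.1.length)))) := by
  rw [step, h1]

theorem emit_out (b : Bool) (σ : List Bool) (st : St) : (emit b σ st).1 = st.1 ++ [b] := by
  unfold emit; split_ifs <;> rfl

theorem emit_stack (b : Bool) (σ : List Bool) (st : St) :
    (emit b σ st).2.1 = st.2.1 ∨ ∃ c, (emit b σ st).2.1 = c :: st.2.1 := by
  unfold emit; split_ifs
  · right; exact ⟨_, rfl⟩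
  · left; rfl

theorem step_out (σ : List Bool) (st : St) : st.1 <+: (step σ st).1 := by
  cases h1 : pop σ st.2.1 with
  | some p => rw [step_pop h1]
  | none =>
    cases h2 : det σ st.2.1 st.2.2.1 with
    | none => rw [step_none h1 h2]
    | some b => rw [step_emit h1 h2, emit_out]; exact List.prefix_append _ _

theorem step_stack {σ : List Bool} {st : St} {l l1 : Cst} (hl : st.2.1 = l1 ++ l)
    (h : inC l σ) : ∃ l2, (step σ st).2.1 = l2 ++ l := by
  cases h1 : pop σ st.2.1 with
  | some p =>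
    rw [step_pop h1]
    rw [hl] at h1
    rcases pop_suffix h l1 with h2 | ⟨i, l2, h2⟩
    · rw [h2] at h1; exact absurd h1 (by simp)
    · rw [h2] at h1
      have := Option.some_injective _ h1
      exact ⟨l2, by rw [← this]⟩
  | none =>
    cases h2 : det σ st.2.1 st.2.2.1 with
    | none => rw [step_none h1 h2]; exact ⟨l1, hl⟩
    | some b =>
      rw [step_emit h1 h2]
      rcases emit_stack b σ st with h3 | ⟨c, h3⟩
      · exact ⟨l1, by rw [h3, hl]⟩
      · exact ⟨c :: l1, by rw [h3, hl]; rfl⟩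

/-! ### coding a bit -/

theorem dead_side {σ : List Bool} {l : Cst} {lam : ℕ} (hlam : σ.length ≤ lam)
    (P : List Bool → Prop) (hP : ∀ η ∈ EE σ l lam, ¬ P η) :
    ∃ k0, lam ≤ k0 ∧ ∀ k, k0 ≤ k → ∀ τ ∈ treeL k, σ <+: τ → inC l τ → ¬ P (τ.take lam) := by
  have hdead : ∀ η ∈ SS lam, ∃ S, σ <+: η → P η →
      ∀ s, S ≤ s → ∀ τ ∈ treeL s, η <+: τ → ¬ inC l τ := by
    intro η hηS
    by_cases hE : Ext η l
    · refine ⟨0, fun hpre hPη => ?_⟩
      exact absurd hPη (hP η (mem_EE.2 ⟨mem_SS.1 hηS, hpre, hE⟩))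
    · obtain ⟨S, hS⟩ := dead_of_not_Ext hE
      exact ⟨S, fun _ _ => hS⟩
  choose! S hS using hdead
  refine ⟨(SS lam).sup S + lam, by omega, fun k hk τ hτ hσ hC hPτ => ?_⟩
  have hl := length_of_mem_treeL hτ
  have hmem : τ.take lam ∈ SS lam := by
    rw [mem_SS, List.length_take]; omega
  have hpre : σ <+: τ.take lam := by
    refine List.prefix_of_prefix_length_le hσ (List.take_prefix _ _) ?_
    rw [mem_SS.1 hmem]; exact hlam
  refine hS _ hmem hpre hPτ k ?_ τ hτ (List.take_prefix _ _) hC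
  have : S (τ.take lam) ≤ (SS lam).sup S := Finset.le_sup hmem
  omega

theorem alive_side {σ : List Bool} {l : Cst} {lam : ℕ} {η : List Bool} (hη : η ∈ EE σ l lam)
    {k : ℕ} (hk : lam ≤ k) : ∃ τ ∈ treeL k, σ <+: τ ∧ inC l τ ∧ τ.take lam = η := by
  rw [mem_EE] at hη
  obtain ⟨h1, h2, X, hX, h3⟩ := hη
  refine ⟨bpre X k, hX.1 k, h2.trans (bpre_inj_le h3 (by omega)), hX.2 k, ?_⟩
  rw [bpre_take X hk, ← h1, h3]

theorem code_bit {σ : List Bool} {l : Cst} (h : Ext σ l) (b : Bool) :
    ∃ X K, inTC l X ∧ bpre X σ.length = σ ∧ σ.length < K ∧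
      det (bpre X K) l σ.length = some b ∧
      ∀ k, σ.length < k → k < K → det (bpre X k) l σ.length = none := by
  classical
  have hlen := length_lt_of_Ext h
  have hcard := two_le_card_EE h
  set lam := Encodable.encode (σ, l) + 4 with hlam
  have hlamf : lamf σ l = lam := rfl
  have hlt : σ.length < lam := by omega
  have hne : (EE σ l lam).Nonempty := Finset.card_pos.1 (by omega)
  -- the string through which we code
  obtain ⟨η, hη, X, hX, hXη, hb⟩ : ∃ η ∈ EE σ l lam, ∃ X, inTC l X ∧ bpre X lam = η ∧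
      ((b = false ∧ (∀ η' ∈ EE σ l lam, ¬ Encodable.encode η' < Encodable.encode η) ∧
        ∃ η' ∈ EE σ l lam, Encodable.encode η < Encodable.encode η') ∨
      (b = true ∧ (∀ η' ∈ EE σ l lam, ¬ Encodable.encode η < Encodable.encode η') ∧
        ∃ η' ∈ EE σ l lam, Encodable.encode η' < Encodable.encode η)) := by
    cases b with
    | false =>
      obtain ⟨η, hη, hmin⟩ := Finset.exists_min_image (EE σ l lam) (fun η => Encodable.encode η) hne
      obtain ⟨η', hη', hne'⟩ := Finset.exists_mem_ne hcard η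
      obtain ⟨h1, h2, X, hX, h3⟩ := mem_EE.1 hη
      refine ⟨η, hη, X, hX, by rw [← h1]; exact h3, Or.inl ⟨rfl, fun η'' h'' => ?_, η', hη', ?_⟩⟩
      · exact not_lt.2 (hmin η'' h'')
      · exact lt_of_le_of_ne (hmin η' hη') (fun heq => hne' (Encodable.encode_injective heq.symm))
    | true =>
      obtain ⟨η, hη, hmax⟩ := Finset.exists_max_image (EE σ l lam) (fun η => Encodable.encode η) hne
      obtain ⟨η', hη', hne'⟩ := Finset.exists_mem_ne hcard η
      obtain ⟨h1, h2, X, hX, h3⟩ := mem_EE.1 hη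
      refine ⟨η, hη, X, hX, by rw [← h1]; exact h3, Or.inr ⟨rfl, fun η'' h'' => ?_, η', hη', ?_⟩⟩
      · exact not_lt.2 (hmax η'' h'')
      · exact lt_of_le_of_ne (hmax η' hη') (fun heq => hne' (Encodable.encode_injective heq))
  have hσ : bpre X σ.length = σ := by
    have h1 := (mem_EE.1 hη).2.1
    rw [← hXη] at h1
    exact (prefix_bpre h1).symm
  have htake : ∀ k, σ.length ≤ k → (bpre X k).take σ.length = σ := by
    intro k hk; rw [bpre_take X hk, hσ]
  have htl : ∀ k, lam ≤ k → (bpre X k).take lam = η := by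
    intro k hk; rw [bpre_take X hk, hXη]
  -- reformulate `det`
  have hdet : ∀ k, σ.length ≤ k → det (bpre X k) l σ.length =
      if lam ≤ k then if ¬ anyB (bpre X k) l σ.length lam then some false
        else if ¬ anyA (bpre X k) l σ.length lam then some true else none else none := by
    intro k hk
    unfold det
    rw [htake k hk, hlamf, bpre_length]
  have hAiff : ∀ k, lam ≤ k → (anyA (bpre X k) l σ.length lam ↔
      ∃ τ ∈ treeL k, σ <+: τ ∧ inC l τ ∧ Encodable.encode η < Encodable.encode (τ.take lam)) := by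
    intro k hk
    unfold anyA
    rw [htake k (by omega), htl k hk, bpre_length]
  have hBiff : ∀ k, lam ≤ k → (anyB (bpre X k) l σ.length lam ↔
      ∃ τ ∈ treeL k, σ <+: τ ∧ inC l τ ∧ Encodable.encode (τ.take lam) < Encodable.encode η) := by
    intro k hk
    unfold anyB
    rw [htake k (by omega), htl k hk, bpre_length]
  rcases hb with ⟨hb, hmin, η', hη', hlt'⟩ | ⟨hb, hmax, η', hη', hlt'⟩
  · have hA : ∀ k, lam ≤ k → anyA (bpre X k) l σ.length lam := by
      intro k hk
      rw [hAiff k hk]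
      obtain ⟨τ, h1, h2, h3, h4⟩ := alive_side hη' hk
      exact ⟨τ, h1, h2, h3, by rw [h4]; exact hlt'⟩
    obtain ⟨k0, hk0, hdead⟩ := dead_side (le_of_lt hlt)
      (fun η' => Encodable.encode η' < Encodable.encode η) hmin
    have hB : ¬ anyB (bpre X k0) l σ.length lam := by
      rw [hBiff k0 hk0]
      rintro ⟨τ, h1, h2, h3, h4⟩
      exact hdead k0 le_rfl τ h1 h2 h3 h4
    have hval : ∀ k, σ.length ≤ k → det (bpre X k) l σ.length ≠ none →
        det (bpre X k) l σ.length = some false := by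
      intro k hk hn
      rw [hdet k hk] at hn ⊢
      by_cases h1 : lam ≤ k
      · rw [if_pos h1] at hn ⊢
        by_cases h2 : ¬ anyB (bpre X k) l σ.length lam
        · rw [if_pos h2]
        · rw [if_neg h2, if_neg (not_not.2 (hA k h1))] at hn
          exact absurd rfl hn
      · rw [if_neg h1] at hn; exact absurd rfl hn
    have hex : ∃ k, σ.length < k ∧ det (bpre X k) l σ.length ≠ none := by
      refine ⟨k0, by omega, ?_⟩
      rw [hdet k0 (by omega), if_pos hk0, if_pos hB]
      simp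
    have hspec := Nat.find_spec hex
    have hmin' := fun k (hk : k < Nat.find hex) => Nat.find_min hex hk
    refine ⟨X, Nat.find hex, hX, hσ, hspec.1, ?_, fun k hk1 hk2 => ?_⟩
    · rw [hval _ (le_of_lt hspec.1) hspec.2, hb]
    · by_contra hn
      exact hmin' k hk2 ⟨hk1, hn⟩
  · have hB : ∀ k, lam ≤ k → anyB (bpre X k) l σ.length lam := by
      intro k hk
      rw [hBiff k hk]
      obtain ⟨τ, h1, h2, h3, h4⟩ := alive_side hη' hk
      exact ⟨τ, h1, h2, h3, by rw [h4]; exact hlt'⟩
    obtain ⟨k0, hk0, hdead⟩ := dead_side (le_of_lt hlt)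
      (fun η' => Encodable.encode η < Encodable.encode η') hmax
    have hA : ¬ anyA (bpre X k0) l σ.length lam := by
      rw [hAiff k0 hk0]
      rintro ⟨τ, h1, h2, h3, h4⟩
      exact hdead k0 le_rfl τ h1 h2 h3 h4
    have hval : ∀ k, σ.length ≤ k → det (bpre X k) l σ.length ≠ none →
        det (bpre X k) l σ.length = some true := by
      intro k hk hn
      rw [hdet k hk] at hn ⊢
      by_cases h1 : lam ≤ k
      · rw [if_pos h1] at hn ⊢
        rw [if_neg (not_not.2 (hB k h1))] at hn ⊢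
        by_cases h2 : ¬ anyA (bpre X k) l σ.length lam
        · rw [if_pos h2]
        · rw [if_neg h2] at hn
          exact absurd rfl hn
      · rw [if_neg h1] at hn; exact absurd rfl hn
    have hex : ∃ k, σ.length < k ∧ det (bpre X k) l σ.length ≠ none := by
      refine ⟨k0, by omega, ?_⟩
      rw [hdet k0 (by omega), if_pos hk0, if_neg (not_not.2 (hB k0 hk0)), if_pos hA]
      simp
    have hspec := Nat.find_spec hex
    have hmin' := fun k (hk : k < Nat.find hex) => Nat.find_min hex hk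
    refine ⟨X, Nat.find hex, hX, hσ, hspec.1, ?_, fun k hk1 hk2 => ?_⟩
    · rw [hval _ (le_of_lt hspec.1) hspec.2, hb]
    · by_contra hn
      exact hmin' k hk2 ⟨hk1, hn⟩

theorem code_bit' {σ : List Bool} {out : List Bool} {l : Cst} {p : ℕ × ℕ} (h : Ext σ l)
    (hD : DD σ = (out, (l, (σ.length, p)))) (b : Bool) :
    ∃ σ', σ <+: σ' ∧ σ.length < σ'.length ∧ Ext σ' l ∧
      DD σ' = emit b σ' (out, (l, (σ.length, p))) := by
  obtain ⟨X, K, hX, hσ, hK, hdet, hnone⟩ := code_bit h b
  have hconst : ∀ k, σ.length ≤ k → k < K → DX X k = (out, (l, (σ.length, p))) := by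
    intro k hk
    induction k, hk using Nat.le_induction with
    | base => intro _; rw [DX_of_bpre hσ, hD]
    | succ k hk ih =>
      intro hkK
      rw [DX_succ, ih (by omega)]
      exact step_none (pop_none (hX.2 _)) (hnone (k + 1) (by omega) hkK)
  obtain ⟨K', rfl⟩ : ∃ K', K = K' + 1 := ⟨K - 1, by omega⟩
  refine ⟨bpre X (K' + 1), bpre_inj_le hσ (by omega), by rw [bpre_length]; exact hK,
    ⟨X, hX, by rw [bpre_length]⟩, ?_⟩
  have h1 : DD (bpre X (K' + 1)) = DX X (K' + 1) := rfl
  rw [h1, DX_succ, hconst K' (by omega) (by omega)]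
  exact step_emit (pop_none (hX.2 _)) hdet

theorem code_word (w : List Bool) : ∀ (σ out : List Bool) (l : Cst) (i q : ℕ), w ≠ [] →
    DD σ = (out, (l, (σ.length, (i, q)))) → Ext σ l → out.length + w.length = q →
    ∃ σ', σ <+: σ' ∧ σ.length < σ'.length ∧ Ext σ' l ∧
      DD σ' = (out ++ w, ((i, 2 * Encodable.encode (σ', l) + i.unpair.2 + 4) :: l,
        (σ'.length, (i + 1, FF (out ++ w).length)))) := by
  induction w with
  | nil => intro _ _ _ _ _ h; exact absurd rfl h
  | cons b w ih =>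
    intro σ out l i q _ hD hE hq
    obtain ⟨σ1, h1, h2, h3, h4⟩ := code_bit' hE hD b
    rw [List.length_cons] at hq
    by_cases hw : w = []
    · subst hw
      refine ⟨σ1, h1, h2, h3, ?_⟩
      rw [h4, emit, if_pos]
      · simp
      · show q ≤ out.length + 1
        simp at hq; omega
    · have hw' : 0 < w.length := List.length_pos_iff.2 hw
      rw [emit, if_neg (by show ¬ q ≤ out.length + 1; omega)] at h4
      obtain ⟨σ', g1, g2, g3, g4⟩ := ih σ1 (out ++ [b]) l i q hw h4 h3 (by simp; omega)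
      refine ⟨σ', h1.trans g1, by omega, g3, ?_⟩
      rw [g4]
      simp

/-! ### settling a constraint -/

theorem settle {t N : ℕ} {σ out : List Bool} {l : Cst}
    (hD : DD σ = (out, ((t, N) :: l, (σ.length, (t + 1, FF out.length)))))
    {P : (ℕ → Bool) → Prop} (hP : ∃ X, inTC l X ∧ bpre X σ.length = σ ∧ P X) :
    ∃ σ', σ <+: σ' ∧ ∃ out' l', DD σ' = (out', (l', (σ'.length, (t + 1, FF out'.length)))) ∧
      Ext σ' l' ∧ out <+: out' ∧ (∀ c ∈ l, c ∈ l') ∧
      ((t, N) ∈ l' ∨ (refuted (t, N) σ' ∧ ∃ X, P X ∧ bpre X σ'.length = σ')) := by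
  classical
  by_cases hE : Ext σ ((t, N) :: l)
  · exact ⟨σ, List.prefix_rfl, out, _, hD, hE, List.prefix_rfl,
      fun c hc => List.mem_cons_of_mem _ hc, Or.inl List.mem_cons_self⟩
  · obtain ⟨X, hX, hσ, hPX⟩ := hP
    have hex : ∃ k, σ.length < k ∧ refuted (t, N) (bpre X k) := by
      by_contra hcon
      apply hE
      refine ⟨X, ⟨hX.1, fun k c hc => ?_⟩, hσ⟩
      rw [List.mem_cons] at hc
      rcases hc with rfl | hc
      · intro hr
        exact hcon ⟨max k (σ.length + 1), by omega,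
          refuted_mono (bpre_prefix X (le_max_left _ _)) hr⟩
      · exact hX.2 k c hc
    obtain ⟨hK1, hK2⟩ := Nat.find_spec hex
    have hmin := fun k (hk : k < Nat.find hex) => Nat.find_min hex hk
    generalize Nat.find hex = K at *
    -- the invariant
    have hinv : ∀ k, σ.length ≤ k → k < K →
        (∃ l1, (DX X k).2.1 = l1 ++ (t, N) :: l) ∧ out <+: (DX X k).1 := by
      intro k hk
      induction k, hk using Nat.le_induction with
      | base =>
        intro _
        rw [DX_of_bpre hσ, hD]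
        exact ⟨⟨[], rfl⟩, List.prefix_rfl⟩
      | succ k hk ih =>
        intro hkK
        obtain ⟨⟨l1, hl1⟩, hout⟩ := ih (by omega)
        rw [DX_succ]
        refine ⟨step_stack hl1 ?_, hout.trans (step_out _ _)⟩
        intro c hc
        rw [List.mem_cons] at hc
        rcases hc with rfl | hc
        · exact fun hr => hmin (k + 1) hkK ⟨by omega, hr⟩
        · exact hX.2 _ c hc
    obtain ⟨K', rfl⟩ : ∃ K', K = K' + 1 := ⟨K - 1, by omega⟩
    obtain ⟨⟨l1, hl1⟩, hout⟩ := hinv K' (by omega) (by omega)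
    have hpop : pop (bpre X (K' + 1)) (DX X K').2.1 = some (t, l) := by
      rw [hl1]
      exact pop_hit (hX.2 _) hK2 l1
    have hDD : DD (bpre X (K' + 1)) =
        ((DX X K').1, (l, ((bpre X (K' + 1)).length, (t + 1, FF (DX X K').1.length)))) := by
      have h1 : DD (bpre X (K' + 1)) = DX X (K' + 1) := rfl
      rw [h1, DX_succ, step_pop hpop]
    refine ⟨bpre X (K' + 1), bpre_inj_le hσ (by omega), (DX X K').1, l, hDD,
      ⟨X, hX, by rw [bpre_length]⟩, hout, fun c hc => hc, Or.inr ⟨hK2, X, hPX, ?_⟩⟩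
    rw [bpre_length]

/-- true states at stage `t` -/
def Good (t : ℕ) (σ : List Bool) : Prop :=
  ∃ out l, DD σ = (out, (l, (σ.length, (t, FF out.length)))) ∧ Ext σ l

theorem good_zero : Good 0 [] := by
  refine ⟨[], [], rfl, ?_⟩
  obtain ⟨X, hX⟩ := inT_nonempty
  exact ⟨X, ⟨hX, fun k c hc => absurd hc (by simp)⟩, rfl⟩

theorem lt_FF (M : ℕ) : M < FF M := by unfold FF; nlinarith

theorem stage {A : ℕ → Bool} (W : ℕ → Bool) {t : ℕ} {σ : List Bool} (hG : Good t σ) :
    ∃ σ', Good (t + 1) σ' ∧ σ <+: σ' ∧ σ.length < σ'.length ∧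
      (∀ m, (DD σ).1.length ≤ m → m < FF (DD σ).1.length → (DD σ').1[m]? = some (!(W m))) ∧
      (DD σ).1 <+: (DD σ').1 ∧ (∀ c ∈ (DD σ).2.1, c ∈ (DD σ').2.1) ∧
      ((∀ i s, ((SS s).filter fun τ => cov t.unpair.1 τ (bpre A (2 * i + t.unpair.2 + 4))).card *
        2 ^ (i + 3) < 2 ^ s) → (∃ N, (t, N) ∈ (DD σ').2.1) ∨
          ∃ m v, Phi t.unpair.1 σ' m = some v ∧ v ≠ (A m).toNat) := by
  classical
  obtain ⟨out, l, hD, hE⟩ := hG
  -- the word to be coded
  set M := out.length with hM
  let w : List Bool := List.ofFn fun x : Fin (FF M - M) => !(W (M + x.val))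
  have hwl : w.length = FF M - M := by simp [w]
  have hlt := lt_FF M
  have hw : w ≠ [] := by
    intro h0
    rw [h0] at hwl
    simp at hwl
    omega
  obtain ⟨σ1, h1, h2, h3, h4⟩ := code_word w σ out l t (FF M) hw hD hE (by rw [hwl]; omega)
  set N := 2 * Encodable.encode (σ1, l) + t.unpair.2 + 4 with hN
  have hword : ∀ out' : List Bool, out ++ w <+: out' → ∀ m, M ≤ m → m < FF M →
      out'[m]? = some (!(W m)) := by
    rintro out' ⟨u, rfl⟩ m hm1 hm2
    rw [List.getElem?_append_left (by rw [List.length_append, hwl]; omega),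
      List.getElem?_append_right (by omega), List.getElem?_eq_getElem (by rw [hwl]; omega)]
    simp only [w, List.getElem_ofFn]
    congr 3
    omega
  -- choose the property
  obtain ⟨P, hP, hPA⟩ : ∃ P : (ℕ → Bool) → Prop,
      (∃ X, inTC l X ∧ bpre X σ1.length = σ1 ∧ P X) ∧
      ((∀ i s, ((SS s).filter fun τ => cov t.unpair.1 τ (bpre A (2 * i + t.unpair.2 + 4))).card *
        2 ^ (i + 3) < 2 ^ s) → ∀ X, P X → ∀ k, ¬ cov t.unpair.1 (bpre X k) (bpre A N)) := by
    by_cases hc : ∀ i s, ((SS s).filter fun τ =>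
        cov t.unpair.1 τ (bpre A (2 * i + t.unpair.2 + 4))).card * 2 ^ (i + 3) < 2 ^ s
    · exact ⟨fun X => ∀ k, ¬ cov t.unpair.1 (bpre X k) (bpre A N), exists_uncov hc h3,
        fun _ X hX => hX⟩
    · obtain ⟨X, hX, hσX⟩ := h3
      exact ⟨fun _ => True, ⟨X, hX, hσX, trivial⟩, fun hc' => absurd hc' hc⟩
  obtain ⟨σ', g1, out', l', g2, g3, g4, g5, g6⟩ := settle h4 hP
  have hlen' : σ1.length ≤ σ'.length := g1.length_le
  refine ⟨σ', ⟨out', l', g2, g3⟩, h1.trans g1, by omega, ?_, ?_, ?_, ?_⟩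
  · rw [hD, g2]
    exact hword out' g4
  · rw [hD, g2]
    exact (List.prefix_append _ _).trans g4
  · rw [hD, g2]
    exact g5
  · intro hc
    rw [g2]
    rcases g6 with g6 | ⟨hr, X, hPX, hσX⟩
    · exact Or.inl ⟨N, g6⟩
    · right
      have h5 := hPA hc X hPX σ'.length
      rw [hσX] at h5
      unfold cov at h5
      push Not at h5
      obtain ⟨m, hm1, hm2⟩ := h5
      rw [bpre_length] at hm1
      have h6 := hr m hm1
      obtain ⟨v, hv⟩ := Option.isSome_iff_exists.1 h6
      refine ⟨m, v, hv, fun heq => hm2 ?_⟩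
      rw [hv, heq, List.getD_eq_getElem?_getD, bpre_getElem? A hm1]
      rfl

end Pool.Agent.H.MP_ad67df_lc
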