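import Mathlib
import Pool.Agent.H.MP_ad67df_lc.Fun

set_option autoImplicit false

namespace Pool.Agent.H.MP_ad67df_lc

/-- the oracle of a set -/
def orc (A : ℕ → Bool) : ℕ →. ℕ := fun n => Part.some (A n).toNat

/-- `φ` represents `f` relative to `A` -/
def Rep (A : ℕ → Bool) (f : ℕ →. ℕ) (φ : List Bool → ℕ → Option ℕ) : Prop :=
  ∀ n v, v ∈ f n ↔ ∃ s, φ (bpre A s) n = some v

theorem Rep.mono_max {A : ℕ → Bool} {φ : List Bool → ℕ → Option ℕ} (hm : Mono φ)
    {s s' n v : ℕ} (h : s ≤ s') (hv : φ (bpre A s) n = some v) : φ (bpre A s') n = some v :=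
  hm _ _ _ _ (bpre_prefix A h) hv

/-- one step of a bounded search: `0` = undefined value met, `1` = still running,
`k + 2` = found `k` -/
def sstep (k : ℕ) (w : Option ℕ) (st : ℕ) : ℕ :=
  if st = 1 then (if w = some 0 then k + 2 else if w = none then 0 else 1) else st

theorem primrec_sstep : Primrec (fun p : ℕ × (Option ℕ × ℕ) => sstep p.1 p.2.1 p.2.2) := by
  unfold sstep
  refine Primrec.ite ?_ (Primrec.ite ?_ ?_ (Primrec.ite ?_ (Primrec.const 0) (Primrec.const 1)))
    (Primrec.snd.comp Primrec.snd)
  · exact Primrec.eq.comp (Primrec.snd.comp Primrec.snd) (Primrec.const 1)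
  · exact Primrec.eq.comp (Primrec.fst.comp Primrec.snd) (Primrec.const (some 0))
  · exact Primrec.nat_add.comp Primrec.fst (Primrec.const 2)
  · exact Primrec.eq.comp (Primrec.fst.comp Primrec.snd) (Primrec.const none)

/-- bounded search -/
def scan (φ : List Bool → ℕ → Option ℕ) (σ : List Bool) (a : ℕ) : ℕ → ℕ
  | 0 => 1
  | k + 1 => sstep k (φ σ (Nat.pair a k)) (scan φ σ a k)

theorem computable_scan {φ : List Bool → ℕ → Option ℕ} (hφ : Computable₂ φ) :
    Computable (fun p : List Bool × ℕ => scan φ p.1 p.2 p.1.length) := by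
  have h2 : Computable (fun x : (List Bool × ℕ) × (ℕ × ℕ) =>
      (x.2.1, (φ x.1.1 (Nat.pair x.1.2 x.2.1), x.2.2))) := by
    refine Computable.pair (Computable.fst.comp Computable.snd) (Computable.pair ?_
        (Computable.snd.comp Computable.snd))
    exact hφ.comp (Computable.fst.comp Computable.fst)
      (Primrec₂.natPair.to_comp.comp (Computable.snd.comp Computable.fst)
        (Computable.fst.comp Computable.snd))
  have hstep : Computable₂ (fun (p : List Bool × ℕ) (q : ℕ × ℕ) =>
      sstep q.1 (φ p.1 (Nat.pair p.2 q.1)) q.2) := by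
    have h3 := primrec_sstep.to_comp.comp h2
    exact h3
  have hrec : Computable (fun p : List Bool × ℕ => (Nat.rec 1
      (fun k IH => sstep k (φ p.1 (Nat.pair p.2 k)) IH) p.1.length : ℕ)) :=
    Computable.nat_rec (Computable.list_length.comp Computable.fst) (Computable.const _) hstep
  refine hrec.of_eq fun p => ?_
  generalize p.1.length = m
  induction m with
  | zero => rfl
  | succ m ih => rw [scan, ← ih]

theorem scan_running {φ : List Bool → ℕ → Option ℕ} {σ : List Bool} {a k : ℕ} :
    scan φ σ a k = 1 ↔ ∀ j < k, ∃ v, φ σ (Nat.pair a j) = some (v + 1) := by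
  induction k with
  | zero => simp [scan]
  | succ k ih =>
    rw [scan, sstep]
    constructor
    · intro h
      by_cases h1 : scan φ σ a k = 1
      · rw [if_pos h1] at h
        by_cases h2 : φ σ (Nat.pair a k) = some 0
        · rw [if_pos h2] at h; omega
        · rw [if_neg h2] at h
          by_cases h3 : φ σ (Nat.pair a k) = none
          · rw [if_pos h3] at h; omega
          · intro j hj
            rcases Nat.lt_succ_iff_lt_or_eq.1 hj with h | rfl
            · exact (ih.1 h1) j h
            · obtain ⟨v, hv⟩ := Option.ne_none_iff_exists'.1 h3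
              cases v with
              | zero => exact absurd hv h2
              | succ v => exact ⟨v, hv⟩
      · rw [if_neg h1] at h; exact absurd h h1
    · intro h
      rw [if_pos (ih.2 (fun j hj => h j (by omega)))]
      obtain ⟨v, hv⟩ := h k (by omega)
      simp [hv]

theorem scan_found {φ : List Bool → ℕ → Option ℕ} {σ : List Bool} {a k i : ℕ} :
    scan φ σ a k = i + 2 ↔ i < k ∧ φ σ (Nat.pair a i) = some 0 ∧
      ∀ j < i, ∃ v, φ σ (Nat.pair a j) = some (v + 1) := by
  induction k with
  | zero => simp [scan]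
  | succ k ih =>
    rw [scan, sstep]
    constructor
    · intro h
      by_cases h1 : scan φ σ a k = 1
      · rw [if_pos h1] at h
        by_cases h2 : φ σ (Nat.pair a k) = some 0
        · rw [if_pos h2] at h
          have : k = i := by omega
          subst this
          exact ⟨by omega, h2, scan_running.1 h1⟩
        · rw [if_neg h2] at h
          by_cases h3 : φ σ (Nat.pair a k) = none
          · rw [if_pos h3] at h; omega
          · rw [if_neg h3] at h; omega
      · rw [if_neg h1] at h
        obtain ⟨h3, h4, h5⟩ := ih.1 h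
        exact ⟨by omega, h4, h5⟩
    · rintro ⟨h1, h2, h3⟩
      rcases Nat.lt_succ_iff_lt_or_eq.1 h1 with h | rfl
      · have := ih.2 ⟨h, h2, h3⟩
        rw [if_neg (by omega), this]
      · rw [if_pos (scan_running.2 h3), if_pos h2]

theorem exists_rep (A : ℕ → Bool) {f : ℕ →. ℕ} (h : Nat.RecursiveIn {orc A} f) :
    ∃ φ : List Bool → ℕ → Option ℕ, Computable₂ φ ∧ Mono φ ∧ Rep A f φ := by
  induction h with
  | zero =>
    refine ⟨fun _ _ => some 0, Computable.const _, fun _ _ _ _ _ h => h, fun n v => ?_⟩
    constructor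
    · intro hv
      exact ⟨0, by rw [Part.mem_some_iff.1 hv]⟩
    · rintro ⟨_, hs⟩
      exact Part.mem_some_iff.2 (Option.some_injective _ hs).symm
  | succ =>
    refine ⟨fun _ n => some (n + 1), ?_, fun _ _ _ _ _ h => h, fun n v => ?_⟩
    · exact Computable₂.mk (Computable.option_some.comp (Computable.succ.comp Computable.snd))
    · constructor
      · intro hv
        exact ⟨0, by rw [Part.mem_some_iff.1 hv]⟩
      · rintro ⟨_, hs⟩
        exact Part.mem_some_iff.2 (Option.some_injective _ hs).symm
  | left =>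
    refine ⟨fun _ n => some n.unpair.1, ?_, fun _ _ _ _ _ h => h, fun n v => ?_⟩
    · exact Computable₂.mk (Computable.option_some.comp
        (Computable.fst.comp (Computable.unpair.comp Computable.snd)))
    · constructor
      · intro hv
        exact ⟨0, by rw [Part.mem_some_iff.1 hv]⟩
      · rintro ⟨_, hs⟩
        exact Part.mem_some_iff.2 (Option.some_injective _ hs).symm
  | right =>
    refine ⟨fun _ n => some n.unpair.2, ?_, fun _ _ _ _ _ h => h, fun n v => ?_⟩
    · exact Computable₂.mk (Computable.option_some.comp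
        (Computable.snd.comp (Computable.unpair.comp Computable.snd)))
    · constructor
      · intro hv
        exact ⟨0, by rw [Part.mem_some_iff.1 hv]⟩
      · rintro ⟨_, hs⟩
        exact Part.mem_some_iff.2 (Option.some_injective _ hs).symm
  | oracle g hg =>
    rw [Set.mem_singleton_iff] at hg
    subst hg
    refine ⟨fun σ n => (σ[n]?).map Bool.toNat, ?_, ?_, ?_⟩
    · refine Computable₂.mk (Computable.option_map
        (Computable.list_getElem?.comp Computable.fst Computable.snd) ?_)
      exact Computable₂.mk ((Primrec.dom_bool Bool.toNat).to_comp.comp Computable.snd)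
    · intro σ τ n v hpre h
      simp only [Option.map_eq_some_iff] at h ⊢
      obtain ⟨b, hb, rfl⟩ := h
      obtain ⟨ρ, rfl⟩ := hpre
      refine ⟨b, ?_, rfl⟩
      rw [List.getElem?_append_left]
      · exact hb
      · by_contra hcon
        rw [List.getElem?_eq_none (by omega)] at hb
        exact absurd hb (by simp)
    · intro n v
      constructor
      · intro hv
        refine ⟨n + 1, ?_⟩
        show ((bpre A (n + 1))[n]?).map Bool.toNat = some v
        rw [bpre_getElem? A (Nat.lt_succ_self n)]
        rw [Part.mem_some_iff.1 hv]; rfl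
      · rintro ⟨s, hs⟩
        simp only [Option.map_eq_some_iff] at hs
        obtain ⟨b, hb, rfl⟩ := hs
        by_cases hn : n < s
        · rw [bpre_getElem? A hn] at hb
          rw [← Option.some_injective _ hb]
          exact Part.mem_some _
        · rw [List.getElem?_eq_none (by rw [bpre_length]; omega)] at hb
          exact absurd hb (by simp)
  | @pair f h _ _ ihf ihh =>
    obtain ⟨φ, hφ, mφ, rφ⟩ := ihf
    obtain ⟨ψ, hψ, mψ, rψ⟩ := ihh
    refine ⟨fun σ n => (φ σ n).bind fun a => (ψ σ n).map fun b => Nat.pair a b, ?_, ?_, ?_⟩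
    · refine Computable₂.mk (Computable.option_bind hφ (Computable₂.mk
        (Computable.option_map (hψ.comp (Computable.fst.comp Computable.fst)
          (Computable.snd.comp Computable.fst)) (Computable₂.mk ?_))))
      exact Primrec₂.natPair.to_comp.comp (Computable.snd.comp Computable.fst) Computable.snd
    · intro σ τ n v hpre h
      simp only [Option.bind_eq_some_iff, Option.map_eq_some_iff] at h ⊢
      obtain ⟨a, ha, b, hb, rfl⟩ := h
      exact ⟨a, mφ _ _ _ _ hpre ha, b, mψ _ _ _ _ hpre hb, rfl⟩
    · intro n v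
      have hmem : v ∈ (Nat.pair <$> f n <*> h n) ↔ ∃ a ∈ f n, ∃ b ∈ h n, Nat.pair a b = v := by
        simp [Seq.seq]
      rw [hmem]
      constructor
      · rintro ⟨a, ha, b, hb, rfl⟩
        obtain ⟨s, hs⟩ := (rφ _ _).1 ha
        obtain ⟨t, ht⟩ := (rψ _ _).1 hb
        refine ⟨max s t, ?_⟩
        simp only
        rw [Rep.mono_max mφ (le_max_left s t) hs, Rep.mono_max mψ (le_max_right s t) ht]
        rfl
      · rintro ⟨s, hs⟩
        simp only [Option.bind_eq_some_iff, Option.map_eq_some_iff] at hs
        obtain ⟨a, ha, b, hb, rfl⟩ := hs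
        exact ⟨a, (rφ _ _).2 ⟨s, ha⟩, b, (rψ _ _).2 ⟨s, hb⟩, rfl⟩
  | @comp f h _ _ ihf ihh =>
    obtain ⟨φ, hφ, mφ, rφ⟩ := ihf
    obtain ⟨ψ, hψ, mψ, rψ⟩ := ihh
    refine ⟨fun σ n => (ψ σ n).bind fun a => φ σ a, ?_, ?_, ?_⟩
    · refine Computable₂.mk (Computable.option_bind hψ (Computable₂.mk
        (hφ.comp (Computable.fst.comp Computable.fst) Computable.snd)))
    · intro σ τ n v hpre h
      simp only [Option.bind_eq_some_iff] at h ⊢
      obtain ⟨a, ha, hb⟩ := h
      exact ⟨a, mψ _ _ _ _ hpre ha, mφ _ _ _ _ hpre hb⟩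
    · intro n v
      have hmem : v ∈ (h n).bind f ↔ ∃ a ∈ h n, v ∈ f a := Part.mem_bind_iff
      show v ∈ (h n).bind f ↔ _
      rw [hmem]
      constructor
      · rintro ⟨a, ha, hb⟩
        obtain ⟨s, hs⟩ := (rψ _ _).1 ha
        obtain ⟨t, ht⟩ := (rφ _ _).1 hb
        refine ⟨max s t, ?_⟩
        simp only
        rw [Rep.mono_max mψ (le_max_left s t) hs]
        exact Rep.mono_max mφ (le_max_right s t) ht
      · rintro ⟨s, hs⟩
        simp only [Option.bind_eq_some_iff] at hs
        obtain ⟨a, ha, hb⟩ := hs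
        exact ⟨a, (rψ _ _).2 ⟨s, ha⟩, (rφ _ _).2 ⟨s, hb⟩⟩
  | @prec f h _ _ ihf ihh =>
    obtain ⟨φ, hφ, mφ, rφ⟩ := ihf
    obtain ⟨ψ, hψ, mψ, rψ⟩ := ihh
    let Θ : List Bool → ℕ → ℕ → Option ℕ := fun σ a n =>
      Nat.rec (φ σ a) (fun y IH => IH.bind fun i => ψ σ (Nat.pair a (Nat.pair y i))) n
    have hΘm : ∀ σ τ a n v, σ <+: τ → Θ σ a n = some v → Θ τ a n = some v := by
      intro σ τ a n v hpre
      induction n generalizing v with
      | zero => exact mφ _ _ _ _ hpre
      | succ n ih =>
        intro hv
        have hv' : (Θ σ a n).bind (fun i => ψ σ (Nat.pair a (Nat.pair n i))) = some v := hv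
        show (Θ τ a n).bind (fun i => ψ τ (Nat.pair a (Nat.pair n i))) = some v
        rw [Option.bind_eq_some_iff] at hv' ⊢
        obtain ⟨i, hi, hb⟩ := hv'
        exact ⟨i, ih _ hi, mψ _ _ _ _ hpre hb⟩
    refine ⟨fun σ p => Θ σ p.unpair.1 p.unpair.2, ?_, ?_, ?_⟩
    · refine Computable₂.mk ?_
      have h1 : Computable (fun p : List Bool × ℕ => p.2.unpair.1) :=
        Computable.fst.comp (Computable.unpair.comp Computable.snd)
      have h2 : Computable (fun p : List Bool × ℕ => p.2.unpair.2) :=
        Computable.snd.comp (Computable.unpair.comp Computable.snd)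
      refine Computable.nat_rec (f := fun p : List Bool × ℕ => p.2.unpair.2)
        (g := fun p => φ p.1 p.2.unpair.1)
        (h := fun p (q : ℕ × Option ℕ) => q.2.bind fun i =>
          ψ p.1 (Nat.pair p.2.unpair.1 (Nat.pair q.1 i))) h2 (hφ.comp Computable.fst h1) ?_
      refine Computable₂.mk (Computable.option_bind (Computable.snd.comp Computable.snd)
        (Computable₂.mk ?_))
      refine hψ.comp (Computable.fst.comp (Computable.fst.comp Computable.fst)) ?_
      refine Primrec₂.natPair.to_comp.comp
        (h1.comp (Computable.fst.comp Computable.fst)) ?_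
      exact Primrec₂.natPair.to_comp.comp
        (Computable.fst.comp (Computable.snd.comp Computable.fst)) Computable.snd
    · intro σ τ p v hpre h
      exact hΘm _ _ _ _ _ hpre h
    · intro p v
      show v ∈ (Nat.rec (f p.unpair.1) (fun y IH => IH >>= fun i =>
        h (Nat.pair p.unpair.1 (Nat.pair y i))) p.unpair.2 : Part ℕ) ↔ _
      simp only
      generalize p.unpair.1 = a
      generalize p.unpair.2 = n
      induction n generalizing v with
      | zero => exact rφ a v
      | succ n ih =>
        have hmem : v ∈ (Nat.rec (f a) (fun y IH => IH >>= fun i =>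
            h (Nat.pair a (Nat.pair y i))) (n + 1) : Part ℕ) ↔
            ∃ i ∈ (Nat.rec (f a) (fun y IH => IH >>= fun i =>
            h (Nat.pair a (Nat.pair y i))) n : Part ℕ), v ∈ h (Nat.pair a (Nat.pair n i)) := by
          simp
        rw [hmem]
        constructor
        · rintro ⟨i, hi, hb⟩
          obtain ⟨s, hs⟩ := (ih _).1 hi
          obtain ⟨t, ht⟩ := (rψ _ _).1 hb
          refine ⟨max s t, ?_⟩
          show (Θ _ a n).bind (fun i => ψ _ (Nat.pair a (Nat.pair n i))) = some v
          rw [hΘm _ _ _ _ _ (bpre_prefix A (le_max_left s t)) hs]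
          exact Rep.mono_max mψ (le_max_right s t) ht
        · rintro ⟨s, hs⟩
          have hs' : (Θ (bpre A s) a n).bind
            (fun i => ψ (bpre A s) (Nat.pair a (Nat.pair n i))) = some v := hs
          rw [Option.bind_eq_some_iff] at hs'
          obtain ⟨i, hi, hb⟩ := hs'
          exact ⟨i, (ih _).2 ⟨s, hi⟩, (rψ _ _).2 ⟨s, hb⟩⟩
  | @rfind f _ ihf =>
    obtain ⟨φ, hφ, mφ, rφ⟩ := ihf
    have hiff : ∀ {σ a v}, dec0 (scan φ σ a σ.length - 1) = some v ↔
        v < σ.length ∧ φ σ (Nat.pair a v) = some 0 ∧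
          ∀ j < v, ∃ w, φ σ (Nat.pair a j) = some (w + 1) := by
      intro σ a v
      rw [← scan_found]
      constructor
      · intro h
        cases hs : scan φ σ a σ.length - 1 with
        | zero => rw [hs] at h; exact absurd h (by simp [dec0])
        | succ u =>
          rw [hs] at h
          have : u = v := by simpa [dec0] using h
          omega
      · intro h
        rw [h]; rfl
    refine ⟨fun σ a => dec0 (scan φ σ a σ.length - 1), ?_, ?_, ?_⟩
    · refine Computable₂.mk (primrec_dec0.to_comp.comp ?_)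
      exact Primrec.nat_sub.to_comp.comp (computable_scan hφ) (Computable.const 1)
    · intro σ τ a v hpre h
      simp only [hiff] at h ⊢
      obtain ⟨h1, h2, h3⟩ := h
      refine ⟨lt_of_lt_of_le h1 hpre.length_le, mφ _ _ _ _ hpre h2, fun j hj => ?_⟩
      obtain ⟨w, hw⟩ := h3 j hj
      exact ⟨w, mφ _ _ _ _ hpre hw⟩
    · intro a v
      have hval : ∀ {s j w}, φ (bpre A s) (Nat.pair a j) = some w → w ∈ f (Nat.pair a j) :=
        fun {s j w} h => (rφ _ _).2 ⟨s, h⟩
      have hmem : v ∈ Nat.rfind (fun n => (f (Nat.pair a n)).map (fun m => decide (m = 0))) ↔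
          0 ∈ f (Nat.pair a v) ∧ ∀ j < v, ∃ w, (w + 1) ∈ f (Nat.pair a j) := by
        refine Nat.mem_rfind.trans ?_
        constructor
        · rintro ⟨h1, h2⟩
          constructor
          · obtain ⟨w, hw, hw0⟩ := (Part.mem_map_iff _).1 h1
            have : w = 0 := by simpa using hw0
            rwa [this] at hw
          · intro j hj
            obtain ⟨w, hw, hw0⟩ := (Part.mem_map_iff _).1 (h2 hj)
            have hw' : w ≠ 0 := by simpa using hw0
            obtain ⟨w', rfl⟩ := Nat.exists_eq_succ_of_ne_zero hw'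
            exact ⟨w', hw⟩
        · rintro ⟨h1, h2⟩
          constructor
          · exact (Part.mem_map_iff _).2 ⟨0, h1, by simp⟩
          · intro j hj
            obtain ⟨w, hw⟩ := h2 j hj
            exact (Part.mem_map_iff _).2 ⟨w + 1, hw, by simp⟩
      show v ∈ Nat.rfind (fun n => (f (Nat.pair a n)).map (fun m => decide (m = 0))) ↔ _
      rw [hmem]
      constructor
      · rintro ⟨h1, h2⟩
        obtain ⟨s, hs⟩ := (rφ _ _).1 h1
        have h3 : ∀ j < v, ∃ w t, φ (bpre A t) (Nat.pair a j) = some (w + 1) := by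
          intro j hj
          obtain ⟨w, hw⟩ := h2 j hj
          obtain ⟨t, ht⟩ := (rφ _ _).1 hw
          exact ⟨w, t, ht⟩
        choose! w t ht using h3
        let S := s + (Finset.range v).sup t + v + 1
        refine ⟨S, ?_⟩
        simp only [hiff]
        rw [bpre_length]
        refine ⟨by omega, Rep.mono_max mφ (by omega) hs, fun j hj => ⟨w j, ?_⟩⟩
        refine Rep.mono_max mφ ?_ (ht j hj)
        have : t j ≤ (Finset.range v).sup t := Finset.le_sup (Finset.mem_range.2 hj)
        omega
      · rintro ⟨s, hs⟩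
        simp only [hiff] at hs
        obtain ⟨h1, h2, h3⟩ := hs
        refine ⟨hval h2, fun j hj => ?_⟩
        obtain ⟨w, hw⟩ := h3 j hj
        exact ⟨w, hval hw⟩

/-- normal form: every function computable from `A` is given by an index of the universal
functional -/
theorem exists_Phi (A : ℕ → Bool) {f : ℕ →. ℕ} (h : RecursiveIn {orc A} f) :
    ∃ e, ∀ n v, v ∈ f n ↔ ∃ s, Phi e (bpre A s) n = some v := by
  rw [RecursiveIn.iff_nat] at h
  obtain ⟨φ, hc, hm, hr⟩ := exists_rep A h
  obtain ⟨e, he⟩ := exists_index φ hc hm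
  exact ⟨e, fun n v => by rw [hr, he]⟩

end Pool.Agent.H.MP_ad67df_lc
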