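import Mathlib
import Pool.Agent.H.MP_ad67df_lc.Rep

set_option autoImplicit false

namespace Pool.Agent.H.MP_ad67df_lc

/-- total function recursive in `O` -/
def RI (O : Set (ℕ →. ℕ)) (f : ℕ → ℕ) : Prop := Nat.RecursiveIn O (fun n => Part.some (f n))

theorem RI.of_comp {O : Set (ℕ →. ℕ)} {p : ℕ → ℕ} (hp : Computable p) : RI O p :=
  Nat.Partrec.recursiveIn (Partrec.nat_iff.1 hp.partrec)

theorem RI.comp {O : Set (ℕ →. ℕ)} {f g : ℕ → ℕ} (hf : RI O f) (hg : RI O g) :
    RI O (fun n => f (g n)) := by
  refine Nat.RecursiveIn.of_eq (Nat.RecursiveIn.comp hf hg) fun n => ?_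
  simp

theorem RI.pair {O : Set (ℕ →. ℕ)} {f g : ℕ → ℕ} (hf : RI O f) (hg : RI O g) :
    RI O (fun n => Nat.pair (f n) (g n)) := by
  refine Nat.RecursiveIn.of_eq (Nat.RecursiveIn.pair hf hg) fun n => ?_
  simp [Seq.seq]

theorem RI.prec {O : Set (ℕ →. ℕ)} {f h : ℕ → ℕ} (hf : RI O f) (hh : RI O h) :
    RI O (fun p => Nat.rec (f p.unpair.1) (fun y IH => h (Nat.pair p.unpair.1 (Nat.pair y IH)))
      p.unpair.2) := by
  refine Nat.RecursiveIn.of_eq (Nat.RecursiveIn.prec hf hh) fun p => ?_
  simp only
  generalize p.unpair.1 = a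
  generalize p.unpair.2 = n
  induction n with
  | zero => rfl
  | succ n ih =>
    simp only
    rw [ih]
    simp

theorem RI.ofOracle (B : ℕ → Bool) : RI {orc B} (fun n => (B n).toNat) :=
  Nat.RecursiveIn.oracle _ (Set.mem_singleton _)

/-- append a bit to a coded string -/
def addBit (p : ℕ) : ℕ :=
  Encodable.encode (((Encodable.decode (α := List Bool) p.unpair.1).getD []) ++
    [decide (p.unpair.2 = 1)])

theorem computable_addBit : Computable addBit := by
  unfold addBit
  have h1 : Primrec (fun p : ℕ => (Encodable.decode (α := List Bool) p.unpair.1).getD []) :=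
    Primrec.option_getD.comp (Primrec.decode.comp (Primrec.fst.comp Primrec.unpair))
      (Primrec.const [])
  have h2 : Primrec (fun p : ℕ => decide (p.unpair.2 = 1)) := by
    have : Primrec₂ (fun a b : ℕ => decide (a = b)) := Primrec.eq.decide
    exact this.comp (Primrec.snd.comp Primrec.unpair) (Primrec.const 1)
  exact (Primrec.encode.comp (Primrec.list_append.comp h1
    (Primrec.list_cons.comp h2 (Primrec.const [])))).to_comp

theorem RI.ofBpre (B : ℕ → Bool) : RI {orc B} (fun s => Encodable.encode (bpre B s)) := by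
  have h1 : RI {orc B} (fun p => addBit (Nat.pair p.unpair.2.unpair.2
      (B p.unpair.2.unpair.1).toNat)) := by
    refine RI.comp (f := addBit) (RI.of_comp computable_addBit) (RI.pair ?_ ?_)
    · exact RI.of_comp (Computable.snd.comp (Computable.unpair.comp
        (Computable.snd.comp Computable.unpair)))
    · refine RI.comp (RI.ofOracle B) ?_
      exact RI.of_comp (Computable.fst.comp (Computable.unpair.comp
        (Computable.snd.comp Computable.unpair)))
  have h0 : RI {orc B} (fun _ => Encodable.encode ([] : List Bool)) :=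
    RI.of_comp (Computable.const _)
  have h2 := RI.comp (RI.prec h0 h1) (g := fun s => Nat.pair 0 s)
    (RI.of_comp (Primrec₂.natPair.to_comp.comp (Computable.const 0) Computable.id))
  have h3 : (fun s => (Nat.rec (Encodable.encode ([] : List Bool)) (fun y IH => addBit
      (Nat.pair (Nat.pair (Nat.pair 0 s).unpair.1 (Nat.pair y IH)).unpair.2.unpair.2
      (B (Nat.pair (Nat.pair 0 s).unpair.1 (Nat.pair y IH)).unpair.2.unpair.1).toNat))
      (Nat.pair 0 s).unpair.2 : ℕ)) = (fun s => Encodable.encode (bpre B s)) := by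
    funext s
    simp only [Nat.unpair_pair]
    induction s with
    | zero => rfl
    | succ s ih =>
      simp only
      rw [ih, addBit]
      simp only [Nat.unpair_pair, Encodable.encodek, Option.getD_some]
      rw [bpre_succ]
      cases B s <;> rfl
  rw [← h3]
  exact h2

/-- functions computed by a computable functional along `B` are recursive in `B` -/
theorem RI.of_functional (B : ℕ → Bool) (ψ : List Bool → ℕ → Option ℕ) (hψ : Computable₂ ψ)
    (g : ℕ → ℕ) (h1 : ∀ n, ∃ s, ψ (bpre B s) n ≠ none)
    (h2 : ∀ n s v, ψ (bpre B s) n = some v → v = g n) :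
    RI {orc B} g := by
  have hev : Computable (fun p : ℕ =>
      ψ ((Encodable.decode (α := List Bool) p.unpair.2).getD []) p.unpair.1) := by
    refine hψ.comp ?_ ((Primrec.fst.comp Primrec.unpair).to_comp)
    exact (Primrec.option_getD.comp (Primrec.decode.comp (Primrec.snd.comp Primrec.unpair))
      (Primrec.const [])).to_comp
  -- test function
  have ht : Computable (fun p : ℕ => 1 - Encodable.encode
      (ψ ((Encodable.decode (α := List Bool) p.unpair.2).getD []) p.unpair.1)) :=
    Primrec.nat_sub.to_comp.comp (Computable.const 1) (Computable.encode.comp hev)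
  have hval : Computable (fun p : ℕ =>
      (ψ ((Encodable.decode (α := List Bool) p.unpair.2).getD []) p.unpair.1).getD 0) :=
    Computable.option_getD hev (Computable.const 0)
  have hP : RI {orc B} (fun p => Nat.pair p.unpair.1
      (Encodable.encode (bpre B p.unpair.2))) :=
    RI.pair (RI.of_comp (Primrec.fst.comp Primrec.unpair).to_comp)
      (RI.comp (RI.ofBpre B) (RI.of_comp (Primrec.snd.comp Primrec.unpair).to_comp))
  have hT := RI.comp (RI.of_comp ht) hP
  have hV := RI.comp (RI.of_comp hval) hP
  simp only [Nat.unpair_pair, Encodable.encodek, Option.getD_some] at hT hV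
  have hF := Nat.RecursiveIn.rfind hT
  have hpr := Nat.RecursiveIn.pair (Nat.Partrec.recursiveIn (O := {orc B})
    (Partrec.nat_iff.1 (Computable.id.partrec))) hF
  refine Nat.RecursiveIn.of_eq (Nat.RecursiveIn.comp hV hpr) fun n => ?_
  rw [Part.eq_some_iff]
  simp only [Nat.unpair_pair]
  have hex : ∃ s, (ψ (bpre B s) n).isSome = true := by
    obtain ⟨s, hs⟩ := h1 n
    exact ⟨s, Option.isSome_iff_ne_none.2 hs⟩
  classical
  have hs := Nat.find_spec hex
  have hlt : ∀ m < Nat.find hex, ψ (bpre B m) n = none := by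
    intro m hm
    have := Nat.find_min hex hm
    simpa using this
  set s := Nat.find hex with hsdef
  obtain ⟨v, hv⟩ := Option.isSome_iff_exists.1 hs
  have hmem : s ∈ Nat.rfind (fun m => Part.map (fun w => decide (w = 0))
      (Part.some (1 - Encodable.encode (ψ (bpre B m) n)))) := by
    refine Nat.mem_rfind.2 ⟨?_, ?_⟩
    · refine (Part.mem_map_iff _).2 ⟨_, Part.mem_some _, ?_⟩
      rw [hv]; simp
    · intro m hm
      refine (Part.mem_map_iff _).2 ⟨_, Part.mem_some _, ?_⟩
      rw [hlt m hm]; simp
  refine Part.mem_bind_iff.2 ⟨Nat.pair n s, ?_, ?_⟩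
  · have : (Nat.pair <$> (Part.some (id n)) <*> Nat.rfind (fun m => Part.map (fun w => decide (w = 0))
      (Part.some (1 - Encodable.encode (ψ (bpre B m) n))))) =
        (Nat.rfind (fun m => Part.map (fun w => decide (w = 0))
      (Part.some (1 - Encodable.encode (ψ (bpre B m) n))))).map (Nat.pair n) := by
      simp [Seq.seq]
    show Nat.pair n s ∈ (Nat.pair <$> (Part.some (id n)) <*> Nat.rfind (fun m => Part.map (fun w => decide (w = 0))
      (Part.some (1 - Encodable.encode (ψ (bpre B m) n)))))
    rw [this]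
    exact (Part.mem_map_iff _).2 ⟨s, hmem, rfl⟩
  · simp only [Nat.unpair_pair]
    rw [hv]
    rw [Part.mem_some_iff]
    exact (h2 _ _ _ hv).symm

end Pool.Agent.H.MP_ad67df_lc
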