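import Mathlib
import Pool.Agent.H.MP_ad67df_lc.Dyn
import Pool.Agent.H.MP_ad67df_lc.Up

set_option autoImplicit false

namespace Pool.Agent.H.MP_ad67df_lc

theorem chain_limit (s : ℕ → List Bool) (h : ∀ t, s t <+: s (t + 1))
    (hl : ∀ t, t ≤ (s t).length) : ∃ B : ℕ → Bool, ∀ t, bpre B (s t).length = s t := by
  have hmono : ∀ t t', t ≤ t' → s t <+: s t' := by
    intro t t' htt
    induction t', htt using Nat.le_induction with
    | base => exact List.prefix_rfl
    | succ k _ ih => exact ih.trans (h k)
  have hget : ∀ t t' i, t ≤ t' → i < (s t).length → (s t)[i]? = (s t')[i]? := by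
    intro t t' i htt hi
    obtain ⟨u, hu⟩ := hmono t t' htt
    rw [← hu, List.getElem?_append_left hi]
  refine ⟨fun n => (s (n + 1)).getD n false, fun t => ?_⟩
  apply List.ext_getElem?
  intro i
  by_cases hi : i < (s t).length
  · rw [bpre_getElem? _ hi]
    have hi' : i < (s (i + 1)).length := hl (i + 1)
    have h1 : (s (i + 1))[i]? = (s t)[i]? := by
      rcases le_total t (i + 1) with h2 | h2
      · exact (hget _ _ _ h2 hi).symm
      · exact hget _ _ _ h2 hi'
    rw [← h1, List.getD_eq_getElem?_getD, List.getElem?_eq_getElem hi']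
    rfl
  · rw [List.getElem?_eq_none (by rw [bpre_length]; omega), List.getElem?_eq_none (by omega)]

theorem DX_out_mono (X : ℕ → Bool) {k m : ℕ} (h : k ≤ m) : (DX X k).1 <+: (DX X m).1 := by
  induction m, h using Nat.le_induction with
  | base => exact List.prefix_rfl
  | succ m _ ih =>
    rw [DX_succ]
    exact ih.trans (step_out _ _)

/-- sets computable from `A` -/
noncomputable def XA (A : ℕ → Bool) (e : ℕ) : ℕ → Bool := by
  classical
  exact fun n => decide (∃ s, Phi e (bpre A s) n = some 1)

theorem exists_XA {A X : ℕ → Bool} (h : RecursiveIn {orc A} (orc X)) : ∃ e, X = XA A e := by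
  classical
  obtain ⟨e, he⟩ := exists_Phi A h
  refine ⟨e, funext fun n => ?_⟩
  have h1 : (∃ s, Phi e (bpre A s) n = some 1) ↔ X n = true := by
    rw [← he]
    show 1 ∈ Part.some (X n).toNat ↔ _
    rw [Part.mem_some_iff]
    cases X n <;> simp
  unfold XA
  cases hX : X n with
  | false =>
    symm
    rw [decide_eq_false_iff_not, h1, hX]; simp
  | true =>
    symm
    rw [decide_eq_true_eq, h1, hX]

theorem exists_BZ {A : ℕ → Bool} (hA : RandF A) : ∃ (B z : ℕ → Bool), RandF B ∧
    RI {orc B} (fun n => (z n).toNat) ∧ ¬ RecursiveIn {orc B} (orc A) ∧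
    (∀ e K, ∃ M, K ≤ M ∧ ∀ m, M ≤ m → m < FF M → z m ≠ XA A e m) := by
  classical
  choose nxt hnxt using fun t σ (h : Good t σ) => stage (A := A) (XA A t.unpair.1) h
  obtain ⟨s, hs0, hsG, hss⟩ : ∃ s : ℕ → List Bool, s 0 = [] ∧ ∃ hG : ∀ t, Good t (s t),
      ∀ t, s (t + 1) = nxt t (s t) (hG t) := by
    let S : (t : ℕ) → {σ : List Bool // Good t σ} := fun t =>
      Nat.rec ⟨[], good_zero⟩ (fun t σ => ⟨nxt t σ.1 σ.2, (hnxt t σ.1 σ.2).1⟩) t
    exact ⟨fun t => (S t).1, rfl, fun t => (S t).2, fun t => rfl⟩
  have hst := fun t => hnxt t (s t) (hsG t)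
  simp only [← hss] at hst
  have hpre : ∀ t, s t <+: s (t + 1) := fun t => (hst t).2.1
  have hlen : ∀ t, t ≤ (s t).length := by
    intro t
    induction t with
    | zero => omega
    | succ t ih => have := (hst t).2.2.1; omega
  have hcode := fun t => (hst t).2.2.2.1
  have hout := fun t => (hst t).2.2.2.2.1
  have hcst := fun t => (hst t).2.2.2.2.2.1
  have hdiag := fun t => (hst t).2.2.2.2.2.2
  have houtlen : ∀ t, t ≤ (DD (s t)).1.length := by
    intro t
    induction t with
    | zero => omega
    | succ t ih =>
      have h1 := lt_FF (DD (s t)).1.length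
      have h2 := hcode t (DD (s t)).1.length le_rfl h1
      by_contra hcon
      rw [List.getElem?_eq_none (by omega)] at h2
      exact absurd h2 (by simp)
  obtain ⟨B, hB⟩ := chain_limit s hpre hlen
  obtain ⟨z, hz⟩ := chain_limit (fun t => (DD (s t)).1) hout houtlen
  -- facts on `B`
  have hext : ∀ t, Ext (s t) (DD (s t)).2.1 := by
    intro t
    obtain ⟨out, l, hD, hE⟩ := hsG t
    rw [hD]; exact hE
  have hBT : inT B := by
    intro k
    obtain ⟨X, hX, hXs⟩ := hext k
    have h1 : bpre B k = bpre X k := by
      rw [← bpre_take B (hlen k), hB k, ← hXs, bpre_take X (hlen k)]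
    rw [h1]
    exact hX.1 k
  refine ⟨B, z, inT_rand hBT, ?_, ?_, ?_⟩
  · -- `z` is computable from `B`
    have hψ : Computable₂ (fun (τ : List Bool) (n : ℕ) => ((DD τ).1[n]?).map Bool.toNat) := by
      refine Primrec₂.to_comp (Primrec₂.mk ?_)
      refine Primrec.option_map (Primrec.list_getElem?.comp (Primrec.fst.comp
        (primrec_DD.comp Primrec.fst)) Primrec.snd) (Primrec₂.mk ?_)
      exact (Primrec.dom_bool Bool.toNat).comp Primrec.snd
    have hDX : ∀ t, DX B (s t).length = DD (s t) := fun t => DX_of_bpre (hB t)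
    refine RI.of_functional B _ hψ (fun n => (z n).toNat) ?_ ?_
    · intro n
      refine ⟨(s (n + 1)).length, ?_⟩
      show ((DX B (s (n + 1)).length).1[n]?).map Bool.toNat ≠ none
      rw [hDX, List.getElem?_eq_getElem (houtlen (n + 1))]
      simp
    · intro n k v hv
      have hv' : ((DX B k).1[n]?).map Bool.toNat = some v := hv
      rw [Option.map_eq_some_iff] at hv'
      obtain ⟨b, hb, rfl⟩ := hv'
      have hlt : n < (DX B k).1.length := by
        by_contra hcon
        rw [List.getElem?_eq_none (by omega)] at hb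
        exact absurd hb (by simp)
      obtain ⟨u, hu⟩ := DX_out_mono B (hlen k)
      have h1 : (DD (s k)).1[n]? = some b := by
        rw [← hDX, ← hu, List.getElem?_append_left hlt]
        exact hb
      have h2 : n < (DD (s k)).1.length := by
        by_contra hcon
        rw [List.getElem?_eq_none (by omega)] at h1
        exact absurd h1 (by simp)
      rw [← hz k, bpre_getElem? z h2] at h1
      rw [Option.some_injective _ h1]
  · -- `A` is not computable from `B`
    intro hAB
    obtain ⟨j, hj⟩ := exists_Phi B hAB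
    obtain ⟨c, hc⟩ := exists_c hA j
    have hd := hdiag (Nat.pair j c)
    rw [Nat.unpair_pair] at hd
    rcases hd hc with ⟨N, hN⟩ | ⟨m, v, hv, hne⟩
    · have hN' : ∀ t', Nat.pair j c + 1 ≤ t' → (Nat.pair j c, N) ∈ (DD (s t')).2.1 := by
        intro t' ht'
        induction t', ht' using Nat.le_induction with
        | base => exact hN
        | succ k _ ih => exact hcst k _ ih
      have hex : ∀ m, ∃ k, Phi j (bpre B k) m = some (A m).toNat := by
        intro m
        exact (hj m _).1 (Part.mem_some _)
      choose kk hkk using hex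
      let t' := (Finset.range N).sup kk + Nat.pair j c + 1
      have hr : refuted (Nat.pair j c, N) (s t') := by
        intro m hm
        have h1 : kk m ≤ (Finset.range N).sup kk := Finset.le_sup (Finset.mem_range.2 hm)
        have h2 : kk m ≤ (s t').length := le_trans (by omega) (hlen t')
        have h3 := Phi_mono (bpre_prefix B h2) (hkk m)
        rw [hB] at h3
        simp only [Nat.unpair_pair]
        rw [h3]; rfl
      exact (hext t').inC _ (hN' t' (by omega)) hr
    · apply hne
      have h1 : v ∈ orc A m := by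
        rw [hj]
        exact ⟨_, by rw [hB]; exact hv⟩
      exact Part.mem_some_iff.1 h1
  · intro e K
    have h1 := hcode (Nat.pair e K)
    rw [Nat.unpair_pair] at h1
    refine ⟨(DD (s (Nat.pair e K))).1.length, ?_, fun m hm1 hm2 heq => ?_⟩
    · exact le_trans (Nat.right_le_pair e K) (houtlen _)
    · have h2 := h1 m hm1 hm2
      have h3 : m < (DD (s (Nat.pair e K + 1))).1.length := by
        by_contra hcon
        rw [List.getElem?_eq_none (by omega)] at h2
        exact absurd h2 (by simp)
      rw [← hz, bpre_getElem? z h3] at h2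
      have h4 := Option.some_injective _ h2
      rw [heq] at h4
      simp at h4

end Pool.Agent.H.MP_ad67df_lc
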