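import Mathlib
import Pool.Agent.H.MP_ad67df_lc.Main

set_option autoImplicit false

namespace Pool.Agent.H.MP_ad67df_lc

/-- the combining function -/
def comb (p : ℕ) : ℕ :=
  if Nat.sqrt p.unpair.1 * Nat.sqrt p.unpair.1 = p.unpair.1 then p.unpair.2.unpair.1
  else p.unpair.2.unpair.2

theorem primrec_comb : Primrec comb := by
  unfold comb
  have h1 : Primrec (fun p : ℕ => p.unpair.1) := Primrec.fst.comp Primrec.unpair
  have h2 : Primrec (fun p : ℕ => p.unpair.2.unpair) :=
    Primrec.unpair.comp (Primrec.snd.comp Primrec.unpair)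
  refine Primrec.ite (Primrec.eq.comp (Primrec.nat_mul.comp (Primrec.nat_sqrt.comp h1)
    (Primrec.nat_sqrt.comp h1)) h1) (Primrec.fst.comp h2) (Primrec.snd.comp h2)

theorem card_ge {X Y : ℕ → Bool} {M : ℕ}
    (h : ∀ m, M ≤ m → m < FF M → Nat.sqrt m * Nat.sqrt m ≠ m → X m ≠ Y m) :
    FF M ≤ ((Finset.range (FF M)).filter fun k => X k ≠ Y k).card + (2 * M + 2) := by
  have hsq : ((Finset.Ico M (FF M)).filter fun m => Nat.sqrt m * Nat.sqrt m = m).card ≤ M + 2 := by
    have : ((Finset.Ico M (FF M)).filter fun m => Nat.sqrt m * Nat.sqrt m = m) ⊆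
        (Finset.range (M + 2)).image fun j => j * j := by
      intro m hm
      rw [Finset.mem_filter, Finset.mem_Ico] at hm
      rw [Finset.mem_image]
      refine ⟨Nat.sqrt m, ?_, hm.2⟩
      rw [Finset.mem_range]
      by_contra hcon
      push Not at hcon
      have h1 : (M + 2) * (M + 2) ≤ Nat.sqrt m * Nat.sqrt m := Nat.mul_le_mul hcon hcon
      rw [hm.2] at h1
      have := hm.1.2
      unfold FF at this
      omega
    refine le_trans (Finset.card_le_card this) (le_trans Finset.card_image_le ?_)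
    rw [Finset.card_range]
  have hsub : ((Finset.Ico M (FF M)).filter fun m => ¬ Nat.sqrt m * Nat.sqrt m = m) ⊆
      (Finset.range (FF M)).filter fun k => X k ≠ Y k := by
    intro m hm
    rw [Finset.mem_filter, Finset.mem_Ico] at hm
    rw [Finset.mem_filter, Finset.mem_range]
    exact ⟨hm.1.2, h m hm.1.1 hm.1.2 hm.2⟩
  have h1 := Finset.card_le_card hsub
  have h2 := Finset.card_filter_add_card_filter_not (s := Finset.Ico M (FF M))
    (fun m => Nat.sqrt m * Nat.sqrt m = m)
  rw [Nat.card_Ico] at h2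
  have h3 := lt_FF M
  omega

theorem limsup_ge {X Y : ℕ → Bool}
    (h : ∀ K, ∃ M, K ≤ M ∧
      ∀ m, M ≤ m → m < FF M → Nat.sqrt m * Nat.sqrt m ≠ m → X m ≠ Y m) (ε : ℝ) (hε : 0 < ε) :
    Filter.limsup (fun m : ℕ =>
      ((((Finset.range m).filter (fun k => X k ≠ Y k)).card : ℝ) / (m : ℝ)))
        Filter.atTop ≥ 1 - ε := by
  apply Filter.le_limsup_of_frequently_le
  · rw [Filter.frequently_atTop]
    intro K
    obtain ⟨K2, hK2⟩ := exists_nat_gt (2 / ε)
    obtain ⟨M, hM, hMM⟩ := h (max K K2)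
    refine ⟨FF M, ?_, ?_⟩
    · have := lt_FF M
      have := le_trans (le_max_left K K2) hM
      omega
    · have h1 := card_ge hMM
      have h2 : ((FF M : ℕ) : ℝ) ≤
          (((Finset.range (FF M)).filter fun k => X k ≠ Y k).card : ℝ) + (2 * M + 2) := by
        exact_mod_cast h1
      have hF : ((FF M : ℕ) : ℝ) = ((M : ℝ) + 2) * (M + 2) := by
        unfold FF; push_cast; ring
      have hMpos : (0 : ℝ) ≤ M := Nat.cast_nonneg M
      have hFpos : (0 : ℝ) < ((FF M : ℕ) : ℝ) := by rw [hF]; positivity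
      have hMε : 2 / ε < (M : ℝ) := by
        refine lt_of_lt_of_le hK2 ?_
        exact_mod_cast le_trans (le_max_right K K2) hM
      rw [div_lt_iff₀ hε] at hMε
      rw [le_div_iff₀ hFpos]
      have h3 : (1 - ε) * ((FF M : ℕ) : ℝ) ≤ ((FF M : ℕ) : ℝ) - (2 * M + 2) := by
        rw [hF]
        nlinarith
      linarith
  · refine ⟨1, ?_⟩
    rw [Filter.eventually_map]
    refine Filter.Eventually.of_forall fun m => ?_
    simp only
    apply div_le_one_of_le₀
    · have := Finset.card_filter_le (Finset.range m) (fun k => X k ≠ Y k)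
      rw [Finset.card_range] at this
      exact_mod_cast this
    · positivity

theorem final {A : ℕ → Bool} (hA : RandF A) : ∃ B : ℕ → Bool, RandF B ∧
    ¬ TuringReducible (orc B) (orc A) ∧ ¬ TuringReducible (orc A) (orc B) ∧
    ∃ Y : ℕ → Bool, TuringReducible (orc Y) (orc B) ∧ TuringReducible (orc B) (orc Y) ∧
      ∀ X : ℕ → Bool, TuringReducible (orc X) (orc A) → ∀ ε : ℝ, 0 < ε →
        Filter.limsup (fun m : ℕ =>
          ((((Finset.range m).filter (fun k => X k ≠ Y k)).card : ℝ) / (m : ℝ)))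
          Filter.atTop ≥ 1 - ε := by
  obtain ⟨B, z, hB, hz, hAB, hdiff⟩ := exists_BZ hA
  refine ⟨B, hB, ?_, hAB, fun n => if Nat.sqrt n * Nat.sqrt n = n then B (Nat.sqrt n) else z n,
    ?_, ?_, ?_⟩
  · intro hBA
    have hzA : TuringReducible (orc z) (orc A) := by
      refine TuringReducible.trans (g := orc B) ?_ hBA
      exact RecursiveIn.iff_nat.2 hz
    obtain ⟨e, he⟩ := exists_XA hzA
    obtain ⟨M, _, hM⟩ := hdiff e 0
    apply hM M le_rfl (lt_FF M)
    rw [← he]
  · have h1 : RI {orc B} (fun n => comb (Nat.pair n (Nat.pair (B (Nat.sqrt n)).toNat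
        (z n).toNat))) := by
      refine RI.comp (f := comb) (RI.of_comp primrec_comb.to_comp) (RI.pair ?_ (RI.pair ?_ hz))
      · exact RI.of_comp Computable.id
      · exact RI.comp (RI.ofOracle B) (RI.of_comp Primrec.nat_sqrt.to_comp)
    refine RecursiveIn.iff_nat.2 (Nat.RecursiveIn.of_eq h1 fun n => ?_)
    simp only [orc, comb, Nat.unpair_pair]
    split_ifs <;> rfl
  · have h1 : RI {orc (fun n => if Nat.sqrt n * Nat.sqrt n = n then B (Nat.sqrt n) else z n)}
        (fun n => ((fun n => if Nat.sqrt n * Nat.sqrt n = n then B (Nat.sqrt n) else z n)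
          (n * n)).toNat) :=
      RI.comp (RI.ofOracle _) (RI.of_comp (Primrec.nat_mul.comp Primrec.id Primrec.id).to_comp)
    refine RecursiveIn.iff_nat.2 (Nat.RecursiveIn.of_eq h1 fun n => ?_)
    simp only [orc, Nat.sqrt_eq, if_true]
  · intro X hX ε hε
    obtain ⟨e, he⟩ := exists_XA hX
    apply limsup_ge _ ε hε
    intro K
    obtain ⟨M, hKM, hM⟩ := hdiff e K
    refine ⟨M, hKM, fun m hm1 hm2 hm3 heq => ?_⟩
    rw [if_neg hm3] at heq
    apply hM m hm1 hm2
    rw [← he, heq]

end Pool.Agent.H.MP_ad67df_lc
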